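import Mathlib

open Set Filter Topology
open scoped Classical

namespace SSD

/-- Data of a tree space: a Banach space of functions on `T`, with sup norm, spanned by the indicators of
the sets `Iic t`. -/
structure TreeSys (T E : Type) [SemilatticeInf T] [NormedAddCommGroup E] [NormedSpace ℝ E] where
  e : T → E
  ev : T → E →L[ℝ] ℝ
  P : T → E →L[ℝ] E
  ev_e : ∀ t x, ev x (e t) = if x ≤ t then 1 else 0
  abs_ev_le : ∀ t f, |ev t f| ≤ ‖f‖
  norm_le : ∀ f C, 0 ≤ C → (∀ t, |ev t f| ≤ C) → ‖f‖ ≤ C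
  ev_P : ∀ s x f, ev x (P s f) = if x ≤ s then ev x f else 0
  dense : ∀ f, f ∈ closure (Submodule.span ℝ (Set.range e) : Set E)

namespace TreeSys

variable {T E : Type} [SemilatticeInf T] [NormedAddCommGroup E] [NormedSpace ℝ E]
variable (S : TreeSys T E)

lemma ext_ev {f g : E} (h : ∀ t, S.ev t f = S.ev t g) : f = g := by
  have h1 : ‖f - g‖ ≤ 0 := by
    apply S.norm_le _ _ le_rfl
    intro t
    rw [map_sub, h t, sub_self, abs_zero]
  rw [← sub_eq_zero, ← norm_le_zero_iff]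
  exact h1

lemma norm_e_le (t : T) : ‖S.e t‖ ≤ 1 := by
  apply S.norm_le _ _ zero_le_one
  intro x
  rw [S.ev_e]; split_ifs <;> simp

/-- induction principle -/
lemma induction {Q : E → Prop} (hcl : IsClosed {f | Q f}) (he : ∀ t, Q (S.e t))
    (hadd : ∀ f g, Q f → Q g → Q (f + g)) (hsmul : ∀ (c : ℝ) f, Q f → Q (c • f)) (h0 : Q 0)
    (f : E) : Q f := by
  have hsub : (Submodule.span ℝ (Set.range S.e) : Set E) ⊆ {f | Q f} := by
    intro g hg
    refine Submodule.span_induction (p := fun g _ => Q g) ?_ h0 (fun a b _ _ => hadd a b)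
      (fun c a _ => hsmul c a) hg
    rintro _ ⟨t, rfl⟩
    exact he t
  exact (hcl.closure_subset_iff.2 hsub) (S.dense f)

lemma clm_ext {F : Type*} [NormedAddCommGroup F] [NormedSpace ℝ F] {A B : E →L[ℝ] F}
    (h : ∀ t, A (S.e t) = B (S.e t)) (f : E) : A f = B f := by
  refine S.induction (Q := fun f => A f = B f) ?_ h ?_ ?_ ?_ f
  · exact isClosed_eq A.continuous B.continuous
  · intro f g hf hg; rw [map_add, map_add, hf, hg]
  · intro c f hf; rw [map_smul, map_smul, hf]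
  · rw [map_zero, map_zero]

lemma P_e (s t : T) : S.P s (S.e t) = S.e (s ⊓ t) := by
  apply S.ext_ev
  intro x
  rw [S.ev_P, S.ev_e, S.ev_e]
  by_cases hs : x ≤ s <;> by_cases ht : x ≤ t <;> simp [hs, ht]

lemma P_P (s t : T) (f : E) : S.P s (S.P t f) = S.P (s ⊓ t) f := by
  apply S.ext_ev
  intro x
  rw [S.ev_P, S.ev_P, S.ev_P]
  by_cases hs : x ≤ s <;> by_cases ht : x ≤ t <;> simp [hs, ht]

lemma P_P_of_le {s t : T} (h : s ≤ t) (f : E) : S.P s (S.P t f) = S.P s f := by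
  rw [P_P, inf_eq_left.2 h]

lemma P_P_of_ge {s t : T} (h : s ≤ t) (f : E) : S.P t (S.P s f) = S.P s f := by
  rw [P_P, inf_eq_right.2 h]

lemma norm_P_le (s : T) (f : E) : ‖S.P s f‖ ≤ ‖f‖ := by
  apply S.norm_le _ _ (norm_nonneg _)
  intro x
  rw [S.ev_P]
  split_ifs
  · exact S.abs_ev_le x f
  · rw [abs_zero]; exact norm_nonneg _

/-- extension by a constant from `Iic s` to `Iic t`. -/
noncomputable def Ext (s t : T) : E →L[ℝ] E :=
  S.P s + (S.ev s).smulRight (S.e t - S.e s)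

lemma Ext_apply (s t : T) (f : E) : S.Ext s t f = S.P s f + S.ev s f • (S.e t - S.e s) := by
  simp [Ext]

lemma ev_Ext {s t : T} (h : s ≤ t) (x : T) (f : E) :
    S.ev x (S.Ext s t f) = if x ≤ s then S.ev x f else if x ≤ t then S.ev s f else 0 := by
  rw [Ext_apply, map_add, S.ev_P, map_smul, map_sub, S.ev_e, S.ev_e]
  by_cases hs : x ≤ s
  · simp [hs, hs.trans h]
  · by_cases ht : x ≤ t <;> simp [hs, ht]

lemma norm_Ext_le {s t : T} (h : s ≤ t) (f : E) : ‖S.Ext s t f‖ ≤ ‖f‖ := by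
  apply S.norm_le _ _ (norm_nonneg _)
  intro x
  rw [S.ev_Ext h]
  split_ifs
  · exact S.abs_ev_le x f
  · exact S.abs_ev_le s f
  · rw [abs_zero]; exact norm_nonneg _

lemma Ext_self (s : T) (f : E) : S.Ext s s f = S.P s f := by
  rw [Ext_apply, sub_self, smul_zero, add_zero]

lemma P_Ext {s t t' : T} (h : s ≤ t) (h' : t ≤ t') (f : E) : S.P t (S.Ext s t' f) = S.Ext s t f := by
  apply S.ext_ev
  intro x
  rw [S.ev_P, S.ev_Ext (h.trans h'), S.ev_Ext h]
  by_cases hs : x ≤ s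
  · simp [hs, hs.trans h]
  · by_cases ht : x ≤ t
    · simp [hs, ht, ht.trans h']
    · simp [hs, ht]

lemma Ext_Ext {s t t' : T} (h : s ≤ t) (h' : t ≤ t') (f : E) :
    S.Ext t t' (S.Ext s t f) = S.Ext s t' f := by
  apply S.ext_ev
  intro x
  rw [S.ev_Ext h', S.ev_Ext (h.trans h'), S.ev_Ext h, S.ev_Ext h]
  by_cases hs : x ≤ s
  · simp [hs, hs.trans h]
  · by_cases ht : x ≤ t
    · simp [hs, ht, ht.trans h']
    · by_cases ht' : x ≤ t'
      · by_cases hts : t ≤ s
        · have : t = s := le_antisymm hts h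
          subst this
          simp [hs, ht']
        · simp [hs, ht, ht', hts]
      · simp [hs, ht, ht']

lemma Ext_P {s t : T} (f : E) : S.Ext s t (S.P s f) = S.Ext s t f := by
  rw [Ext_apply, Ext_apply, S.P_P_of_le le_rfl, S.ev_P, if_pos le_rfl]

end TreeSys
end SSD
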