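import Mathlib

open Set Filter Topology

namespace SSD

/-- SSD at x -/
def IsSSDAt {X : Type*} [AddCommGroup X] [Module ℝ X] (p : Seminorm ℝ X) (x : X) : Prop :=
  ∃ φ : X → ℝ, TendstoUniformlyOn (fun (t : ℝ) (h : X) => (p (x + t • h) - p x) / t) φ (𝓝[>] 0)
    {h | p h = 1}

section deriv
variable {E : Type*} [AddCommGroup E] [Module ℝ E] (N : Seminorm ℝ E)

/-- difference quotient -/
noncomputable def q (h w : E) (τ : ℝ) : ℝ := (N (h + τ • w) - N h) / τ

lemma q_mono {h w : E} {τ τ' : ℝ} (h0 : 0 < τ) (h1 : τ ≤ τ') : q N h w τ ≤ q N h w τ' := by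
  have h0' : 0 < τ' := h0.trans_le h1
  unfold q
  rw [div_le_div_iff₀ h0 h0']
  have hconv : N (h + τ • w) ≤ (1 - τ / τ') * N h + (τ / τ') * N (h + τ' • w) := by
    have e1 : h + τ • w = (1 - τ / τ') • h + (τ / τ') • (h + τ' • w) := by
      rw [smul_add, smul_smul, div_mul_cancel₀ _ h0'.ne']
      module
    have h2 : 0 ≤ τ / τ' := by positivity
    have h3 : 0 ≤ 1 - τ / τ' := by
      rw [sub_nonneg, div_le_one h0']; exact h1
    calc N (h + τ • w) = N ((1 - τ / τ') • h + (τ / τ') • (h + τ' • w)) := by rw [← e1]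
      _ ≤ N ((1 - τ / τ') • h) + N ((τ / τ') • (h + τ' • w)) := map_add_le_add _ _ _
      _ = _ := by
        rw [map_smul_eq_mul, map_smul_eq_mul, Real.norm_of_nonneg h2, Real.norm_of_nonneg h3]
  have h4 : (N (h + τ • w) - N h) ≤ (τ / τ') * (N (h + τ' • w) - N h) := by linarith
  calc (N (h + τ • w) - N h) * τ' ≤ ((τ / τ') * (N (h + τ' • w) - N h)) * τ' := by gcongr
    _ = (N (h + τ' • w) - N h) * τ := by field_simp

lemma q_smul {h w : E} {c τ : ℝ} (hc : 0 < c) (hτ : 0 < τ) :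
    q N h (c • w) τ = c * q N h w (τ * c) := by
  unfold q
  rw [smul_smul]
  field_simp

lemma q_add {h u w : E} {τ : ℝ} (hτ : 0 < τ) :
    q N h (u + w) τ ≤ q N h u (2 * τ) + q N h w (2 * τ) := by
  unfold q
  have e1 : h + τ • (u + w) = (1/2 : ℝ) • (h + (2 * τ) • u) + (1/2 : ℝ) • (h + (2 * τ) • w) := by
    have : (1/2 : ℝ) * (2 * τ) = τ := by ring
    simp only [smul_add, smul_smul, this]
    module
  have h1 : N (h + τ • (u + w)) ≤ (1/2) * N (h + (2 * τ) • u) + (1/2) * N (h + (2 * τ) • w) := by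
    rw [e1]
    refine (map_add_le_add _ _ _).trans ?_
    rw [map_smul_eq_mul, map_smul_eq_mul, Real.norm_of_nonneg (by norm_num : (0:ℝ) ≤ 1/2)]
  rw [← add_div, div_le_div_iff₀ hτ (by positivity)]
  nlinarith

/-- SSD gives one sided derivatives in all directions. -/
lemma exists_deriv {h : E} (hN : ∀ x, N x = 0 → x = 0) {φ : E → ℝ}
    (hφ : TendstoUniformlyOn (fun (t : ℝ) (w : E) => (N (h + t • w) - N h) / t) φ (𝓝[>] 0)
    {w | N w = 1}) (w : E) : ∃ ℓ : ℝ, Tendsto (q N h w) (𝓝[>] 0) (𝓝 ℓ) := by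
  rcases eq_or_ne (N w) 0 with h0 | h0
  · refine ⟨0, ?_⟩
    rw [hN w h0]
    have : q N h 0 = fun _ => 0 := by
      funext τ; simp [q]
    rw [this]
    exact tendsto_const_nhds
  · have hpos : 0 < N w := lt_of_le_of_ne (apply_nonneg _ _) (Ne.symm h0)
    set w' := (N w)⁻¹ • w with hw'
    have hN1 : N w' = 1 := by
      rw [hw', map_smul_eq_mul, norm_inv, Real.norm_of_nonneg hpos.le, inv_mul_cancel₀ h0]
    have h1 : Tendsto (q N h w') (𝓝[>] 0) (𝓝 (φ w')) := hφ.tendsto_at hN1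
    refine ⟨N w * φ w', ?_⟩
    have h2 : ∀ τ : ℝ, 0 < τ → q N h w τ = N w * q N h w' (τ * N w) := by
      intro τ hτ
      rw [← q_smul N hpos hτ, hw', smul_smul, mul_inv_cancel₀ h0, one_smul]
    have h3 : Tendsto (fun τ : ℝ => τ * N w) (𝓝[>] 0) (𝓝[>] 0) := by
      apply tendsto_nhdsWithin_of_tendsto_nhds_of_eventually_within
      · have : Tendsto (fun τ : ℝ => τ * N w) (𝓝 0) (𝓝 (0 * N w)) :=
          (continuous_id.mul continuous_const).tendsto 0
        rw [zero_mul] at this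
        exact this.mono_left nhdsWithin_le_nhds
      · filter_upwards [self_mem_nhdsWithin] with τ hτ
        exact mul_pos hτ hpos
    have h4 : Tendsto (fun τ => N w * q N h w' (τ * N w)) (𝓝[>] 0) (𝓝 (N w * φ w')) :=
      (h1.comp h3).const_mul _
    refine h4.congr' ?_
    filter_upwards [self_mem_nhdsWithin] with τ hτ
    exact (h2 τ hτ).symm

end deriv

section core

variable {E : Type*} [NormedAddCommGroup E] [NormedSpace ℝ E] [CompleteSpace E]

/-- the closed convex hull of the tail. -/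
def CH (f : ℕ → E) (m : ℕ) : Set E := closure (convexHull ℝ (f '' Set.Ici m))

omit [CompleteSpace E] in
lemma CH_convex (f : ℕ → E) (m : ℕ) : Convex ℝ (CH f m) := (convex_convexHull ℝ _).closure

omit [CompleteSpace E] in
lemma CH_anti (f : ℕ → E) {m n : ℕ} (h : m ≤ n) : CH f n ⊆ CH f m :=
  closure_mono (convexHull_mono (Set.image_mono (Set.Ici_subset_Ici.2 h)))

omit [CompleteSpace E] in
lemma mem_CH (f : ℕ → E) (m : ℕ) : f m ∈ CH f m :=
  subset_closure (subset_convexHull ℝ _ ⟨m, Set.mem_Ici.2 le_rfl, rfl⟩)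

omit [CompleteSpace E] in
lemma finite_comb {C : Set E} (hC : Convex ℝ C) (k : ℕ) : ∀ (x : ℕ → E) (y : E), (∀ j, x j ∈ C) → y ∈ C →
    (∑ j ∈ Finset.range k, (1/2 : ℝ) ^ (j + 1) • x j) + (1/2 : ℝ) ^ k • y ∈ C := by
  induction k with
  | zero => intro x y _ hy; simpa using hy
  | succ k ih =>
    intro x y hx hy
    have h1 := ih (fun j => x (j + 1)) y (fun j => hx _) hy
    have h2 := hC (hx 0) h1 (by norm_num : (0:ℝ) ≤ 1/2) (by norm_num : (0:ℝ) ≤ 1/2) (by norm_num)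
    convert h2 using 1
    rw [Finset.sum_range_succ', smul_add, Finset.smul_sum]
    simp only [smul_smul]
    have e1 : ∀ j, (1/2 : ℝ) * (1/2) ^ (j + 1) = (1/2) ^ (j + 1 + 1) := fun j => by ring
    simp only [e1, zero_add, pow_one]
    have e2 : (1/2 : ℝ) * (1/2) ^ k = (1/2) ^ (k + 1) := by ring
    rw [e2]
    abel

lemma summable_comb {g : ℕ → E} {B : ℝ} (hB : ∀ j, ‖g j‖ ≤ B) :
    Summable fun j => (1/2 : ℝ) ^ (j + 1) • g j := by
  have h1 : Summable fun j : ℕ => (1/2 : ℝ) ^ (j + 1) * B :=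
    ((summable_nat_add_iff 1).2 (summable_geometric_of_lt_one (by norm_num) (by norm_num))).mul_right B
  apply Summable.of_norm_bounded h1
  intro j
  rw [norm_smul, norm_pow, Real.norm_of_nonneg (by norm_num : (0:ℝ) ≤ 1/2)]
  gcongr
  exact hB j

lemma tsum_comb_mem {C : Set E} (hC : Convex ℝ C) (hcl : IsClosed C) {g : ℕ → E} {B : ℝ}
    (hB : ∀ j, ‖g j‖ ≤ B) (hg : ∀ j, g j ∈ C) : ∑' j, (1/2 : ℝ) ^ (j + 1) • g j ∈ C := by
  have h1 := (summable_comb hB).hasSum.tendsto_sum_nat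
  have h2 : Tendsto (fun k : ℕ => (1/2 : ℝ) ^ k • g 0) atTop (𝓝 0) := by
    have := (tendsto_pow_atTop_nhds_zero_of_lt_one (by norm_num : (0:ℝ) ≤ 1/2)
      (by norm_num : (1/2 : ℝ) < 1)).smul_const (g 0)
    simpa using this
  have h3 := h1.add h2
  rw [add_zero] at h3
  exact hcl.mem_of_tendsto h3 (Filter.Eventually.of_forall fun k => finite_comb hC k g (g 0) hg (hg 0))

omit [CompleteSpace E] in
lemma norm_CH_le {f : ℕ → E} (hf : ∀ m, ‖f m‖ ≤ 1) {m : ℕ} {v : E} (hv : v ∈ CH f m) : ‖v‖ ≤ 1 := by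
  have h1 : CH f m ⊆ Metric.closedBall 0 1 := by
    apply closure_minimal _ Metric.isClosed_closedBall
    apply convexHull_min _ (convex_closedBall _ _)
    rintro _ ⟨k, _, rfl⟩
    simpa using hf k
  simpa using h1 hv

/-- The Simons type argument. -/
theorem core_lemma (N : Seminorm ℝ E) {a b : ℝ} (ha : 0 < a) (hb : 0 < b)
    (hab : ∀ x, a * ‖x‖ ≤ N x ∧ N x ≤ b * ‖x‖) {f : ℕ → E} (hf : ∀ m, ‖f m‖ ≤ 1) {c : ℝ} (hc : 0 < c)
    (hcN : ∀ v ∈ CH f 0, c ≤ N v)
    (H : ∀ h ∈ CH f 0, ∃ r : ℕ → ℝ, Tendsto r atTop (𝓝 (N h)) ∧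
      ∀ n, ∀ σ : ℝ, ∀ v ∈ CH f n, r n ≤ N (h - σ • v)) :
    ¬ ∀ x, IsSSDAt N x := by
  intro hSSD
  have hN0 : ∀ x, N x = 0 → x = 0 := by
    intro x hx
    have h1 := (hab x).1
    rw [hx] at h1
    have h2 : ‖x‖ ≤ 0 := by
      by_contra h3
      push Not at h3
      have := mul_pos ha h3
      linarith
    exact norm_le_zero_iff.1 h2
  have hstep : ∀ (n : ℕ) (x : E), ∃ g ∈ CH f n, ∀ g' ∈ CH f n,
      N (x + (1/2 : ℝ)^n • g) ≤ N (x + (1/2:ℝ)^n • g') + (c/4) * (1/4)^n := by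
    intro n x
    set S := (fun g => N (x + (1/2 : ℝ)^n • g)) '' CH f n with hS
    have hne : S.Nonempty := ⟨_, f n, mem_CH f n, rfl⟩
    have hbd : BddBelow S := ⟨0, by rintro _ ⟨g, _, rfl⟩; exact apply_nonneg _ _⟩
    obtain ⟨_, ⟨g, hg, rfl⟩, hlt⟩ := Real.lt_sInf_add_pos hne (by positivity : 0 < (c/4) * (1/4)^n)
    refine ⟨g, hg, fun g' hg' => ?_⟩
    have := csInf_le hbd (show N (x + (1/2 : ℝ)^n • g') ∈ S from ⟨g', hg', rfl⟩)
    have h2 : N (x + (1/2 : ℝ)^n • g) < sInf S + (c/4) * (1/4)^n := hlt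
    linarith
  choose G hG1 hG2 using hstep
  let Hs : ℕ → E := fun n => Nat.rec 0 (fun n x => x + (1/2 : ℝ)^(n+1) • G n x) n
  have hHs0 : Hs 0 = 0 := rfl
  have hHs1 : ∀ n, Hs (n+1) = Hs n + (1/2 : ℝ)^(n+1) • G n (Hs n) := fun n => rfl
  let g : ℕ → E := fun n => G n (Hs n)
  have hgC : ∀ n, g n ∈ CH f n := fun n => hG1 n _
  have hg1 : ∀ n, ‖g n‖ ≤ 1 := fun n => norm_CH_le hf (hgC n)
  have hHsum : ∀ n, Hs n = ∑ j ∈ Finset.range n, (1/2 : ℝ) ^ (j + 1) • g j := by
    intro n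
    induction n with
    | zero => simp [hHs0]
    | succ n ih => rw [Finset.sum_range_succ, ← ih, hHs1]
  let v : ℕ → E := fun n => ∑' j, (1/2 : ℝ) ^ (j + 1) • g (j + n)
  have hvC : ∀ n, v n ∈ CH f n := by
    intro n
    apply tsum_comb_mem (CH_convex f n) isClosed_closure (B := 1) (fun j => hg1 _)
    intro j
    exact CH_anti f (Nat.le_add_left _ _) (hgC (j + n))
  set h : E := ∑' j, (1/2 : ℝ) ^ (j + 1) • g j with hh
  have hhC : h ∈ CH f 0 := by
    apply tsum_comb_mem (CH_convex f 0) isClosed_closure (B := 1) (fun j => hg1 _)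
    intro j
    exact CH_anti f (Nat.zero_le _) (hgC j)
  have hdec : ∀ n, h = Hs n + (1/2 : ℝ)^n • v n := by
    intro n
    rw [hh, ← (summable_comb hg1).sum_add_tsum_nat_add n, ← hHsum]
    congr 1
    have : ∀ i, (1/2 : ℝ) ^ (i + n + 1) • g (i + n) = (1/2 : ℝ)^n • ((1/2 : ℝ) ^ (i + 1) • g (i + n)) := by
      intro i
      rw [smul_smul]
      congr 1
      ring
    simp only [this]
    exact tsum_const_smul'' _
  have hkey : ∀ n, Hs n + (1/2 : ℝ)^n • g n = h + (1/2 : ℝ)^n • (v n - v (n+1)) := by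
    intro n
    have h1 := hdec n
    have h2 := hdec (n+1)
    rw [hHs1] at h2
    have h3 : (1/2 : ℝ)^(n+1) = (1/2) * (1/2)^n := by ring
    rw [h3] at h2
    linear_combination (norm := module) h1 - (2:ℝ) • h2
  have hder : ∀ n, N (h + (1/2 : ℝ)^n • (v n - v (n+1))) ≤ N h + (c/4) * (1/4)^n := by
    intro n
    rw [← hkey]
    have h1 := hG2 n (Hs n) (v n) (hvC n)
    rw [← hdec n] at h1
    exact h1
  obtain ⟨φ, hφ⟩ := hSSD h
  have hlim := exists_deriv N hN0 hφ
  choose p hp using hlim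
  have hple : ∀ w τ, 0 < τ → p w ≤ q N h w τ := by
    intro w τ hτ
    apply le_of_tendsto (hp w)
    filter_upwards [Ioo_mem_nhdsGT hτ] with τ' hτ'
    exact q_mono N hτ'.1 hτ'.2.le
  have hpadd : ∀ u w, p (u + w) ≤ p u + p w := by
    intro u w
    have h3 : Tendsto (fun τ : ℝ => 2 * τ) (𝓝[>] 0) (𝓝[>] 0) := by
      apply tendsto_nhdsWithin_of_tendsto_nhds_of_eventually_within
      · have : Tendsto (fun τ : ℝ => 2 * τ) (𝓝 0) (𝓝 (2 * 0)) :=
          (continuous_const.mul continuous_id).tendsto 0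
        rw [mul_zero] at this
        exact this.mono_left nhdsWithin_le_nhds
      · filter_upwards [self_mem_nhdsWithin] with τ hτ
        exact mul_pos two_pos (show (0:ℝ) < τ from hτ)
    apply le_of_tendsto_of_tendsto (hp (u + w)) (((hp u).comp h3).add ((hp w).comp h3))
    filter_upwards [self_mem_nhdsWithin] with τ hτ
    exact q_add N hτ
  have hp1 : ∀ n, p (v n - v (n+1)) ≤ (c/4) * (1/2)^n := by
    intro n
    refine (hple _ ((1/2 : ℝ)^n) (by positivity)).trans ?_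
    unfold q
    rw [div_le_iff₀ (by positivity)]
    have h1 := hder n
    have h2 : (c/4) * (1/2)^n * (1/2 : ℝ)^n = (c/4) * (1/4)^n := by
      rw [mul_assoc, ← mul_pow]; norm_num
    rw [h2]
    linarith
  have hv0 : v 0 = h := rfl
  have hp0 : p (-h) ≤ - N h := by
    refine (hple _ 1 one_pos).trans ?_
    unfold q
    simp
  have hpn : ∀ n, p (-(v n)) ≤ - N h + (c/2) * (1 - (1/2)^n) := by
    intro n
    induction n with
    | zero => rw [hv0]; simpa using hp0
    | succ n ih =>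
      have h1 : -(v (n+1)) = -(v n) + (v n - v (n+1)) := by abel
      rw [h1]
      refine (hpadd _ _).trans ?_
      have h2 := hp1 n
      have h3 : (1/2 : ℝ)^(n+1) = (1/2) * (1/2)^n := by ring
      rw [h3]
      linarith
  have hNh : c ≤ N h := hcN h hhC
  have hpn' : ∀ n, p (-(v n)) ≤ -(c/2) := by
    intro n
    have h1 := hpn n
    have h2 : (0:ℝ) < (1/2)^n := by positivity
    nlinarith
  -- uniformity
  have hNv1 : ∀ n, c ≤ N (v n) := fun n => hcN _ (CH_anti f (Nat.zero_le _) (hvC n))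
  have hNv2 : ∀ n, N (v n) ≤ b := by
    intro n
    refine (hab _).2.trans ?_
    have := norm_CH_le hf (hvC n)
    nlinarith
  have hφp : ∀ w, N w = 1 → φ w = p w := by
    intro w hw
    exact tendsto_nhds_unique (hφ.tendsto_at hw) (hp w)
  have hε : 0 < c / (4 * b) := by positivity
  have huni := Metric.tendstoUniformlyOn_iff.1 hφ (c / (4 * b)) hε
  obtain ⟨τ, hτ1, hτ0⟩ := (huni.and self_mem_nhdsWithin).exists
  have hτ0 : 0 < τ := hτ0
  have hfin : ∀ n, ∃ σ : ℝ, N (h - σ • v n) ≤ N h - τ * (c / (4 * b)) := by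
    intro n
    have hNvpos : 0 < N (v n) := hc.trans_le (hNv1 n)
    set w := (N (v n))⁻¹ • (-(v n)) with hw
    have hw1 : N w = 1 := by
      rw [hw, map_smul_eq_mul, norm_inv, Real.norm_of_nonneg hNvpos.le, map_neg_eq_map, inv_mul_cancel₀ hNvpos.ne']
    have h1 := hτ1 w hw1
    rw [Real.dist_eq, abs_lt] at h1
    have h2 : φ w ≤ -(c / (2 * b)) := by
      rw [hφp w hw1]
      have h3 : p w ≤ (N (v n))⁻¹ * (-(c/2)) := by
        have h4 : Tendsto (fun τ : ℝ => (N (v n))⁻¹ * q N h (-(v n)) (τ * (N (v n))⁻¹)) (𝓝[>] 0) (𝓝 ((N (v n))⁻¹ * p (-(v n)))) := by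
          apply Tendsto.const_mul
          apply (hp (-(v n))).comp
          apply tendsto_nhdsWithin_of_tendsto_nhds_of_eventually_within
          · have : Tendsto (fun τ : ℝ => τ * (N (v n))⁻¹) (𝓝 0) (𝓝 (0 * (N (v n))⁻¹)) :=
              (continuous_id.mul continuous_const).tendsto 0
            rw [zero_mul] at this
            exact this.mono_left nhdsWithin_le_nhds
          · filter_upwards [self_mem_nhdsWithin] with τ hτ
            exact mul_pos hτ (inv_pos.2 hNvpos)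
        have h5 : p w = (N (v n))⁻¹ * p (-(v n)) := by
          apply tendsto_nhds_unique (hp w)
          refine h4.congr' ?_
          filter_upwards [self_mem_nhdsWithin] with τ hτ
          rw [hw, q_smul N (inv_pos.2 hNvpos) hτ]
        rw [h5]
        exact mul_le_mul_of_nonneg_left (hpn' n) (inv_pos.2 hNvpos).le
      refine h3.trans ?_
      rw [inv_mul_eq_div, div_le_iff₀ hNvpos]
      have h6 := hNv2 n
      have h7 : -(c / (2 * b)) * N (v n) = -((c / (2 * b)) * N (v n)) := by ring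
      rw [h7, neg_le_neg_iff]
      calc c / (2 * b) * N (v n) ≤ c / (2 * b) * b := by gcongr
        _ = c / 2 := by field_simp
    have h3 : (N (h + τ • w) - N h) / τ ≤ -(c / (4 * b)) := by
      have h4 : c / (2 * b) = c / (4 * b) + c / (4 * b) := by field_simp; norm_num
      linarith [h1.1]
    rw [div_le_iff₀ hτ0] at h3
    refine ⟨τ * (N (v n))⁻¹, ?_⟩
    have h4 : h - (τ * (N (v n))⁻¹) • v n = h + τ • w := by
      rw [hw, smul_smul, smul_neg, sub_eq_add_neg]
    rw [h4]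
    linarith
  obtain ⟨r, hr1, hr2⟩ := H h hhC
  have h1 : N h ≤ N h - τ * (c / (4 * b)) := by
    apply le_of_tendsto' hr1
    intro n
    obtain ⟨σ, hσ⟩ := hfin n
    exact (hr2 n σ (v n) (hvC n)).trans hσ
  have h2 : 0 < τ * (c / (4 * b)) := by positivity
  linarith

end core

end SSD
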