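import Pool.Agent.H9.SSDa
import Pool.Agent.H9.SSDb

open Set Filter Topology
open scoped Classical

namespace SSD

structure TreeHyp (T : Type) [SemilatticeInf T] : Prop where
  lin : ∀ t x y : T, x ≤ t → y ≤ t → x ≤ y ∨ y ≤ x
  wf : WellFounded ((· < ·) : T → T → Prop)
  cnt : ∀ t : T, (Set.Iic t).Countable
  lub : ∀ s : ℕ → T, Monotone s → ∃ t, IsLUB (range s) t
  branch : ∀ s : T, ¬ {u | s ⋖ u}.Countable
  ne : Nonempty T

section tree

variable {T E : Type} [SemilatticeInf T] [NormedAddCommGroup E] [NormedSpace ℝ E]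
variable (S : TreeSys T E) (N : Seminorm ℝ E)

/-- support in the cone above `u` -/
def SuppIn (v : E) (u : T) : Prop := ∀ x, ¬ u ≤ x → S.ev x v = 0

def GoodCover (s u : T) : Prop :=
  s ⋖ u ∧ ∀ f v, SuppIn S v u → N (S.P s f) ≤ N (S.P s f + v)

def Good (t : T) : Prop := ∀ s u, s < t → s ⋖ u → u ≤ t → GoodCover S N s u

variable {S N}

lemma Good.mono {s t : T} (h : s ≤ t) (ht : Good S N t) : Good S N s :=
  fun x u hx hxu hu => ht x u (hx.trans_le h) hxu (hu.trans h)

lemma N_sum_le {ι : Type*} (F : Finset ι) (g : ι → E) : N (∑ i ∈ F, g i) ≤ ∑ i ∈ F, N (g i) :=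
  Finset.le_sum_of_subadditive N (map_zero N).le (map_add_le_add N) F g

lemma N_add_ge (x y : E) : N x - N y ≤ N (x + y) := by
  have h : N x ≤ N (x + y) + N y := by
    calc N x = N ((x + y) + -y) := by congr 1; abel
      _ ≤ N (x + y) + N (-y) := map_add_le_add _ _ _
      _ = _ := by rw [map_neg_eq_map]
  linarith

lemma N_natsmul (k : ℕ) (x : E) : N (k • x) = k * N x := by
  rw [← Nat.cast_smul_eq_nsmul ℝ, map_smul_eq_mul]; simp

lemma disj_covers (H : TreeHyp T) {s u u' x : T} (hu : s ⋖ u) (hu' : s ⋖ u') (h : u ≤ x) (h' : u' ≤ x) :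
    u = u' := by
  rcases H.lin x u u' h h' with h1 | h1
  · rcases h1.lt_or_eq with h2 | h2
    · exact absurd h2 (hu'.2 hu.1)
    · exact h2
  · rcases h1.lt_or_eq with h2 | h2
    · exact absurd h2 (hu.2 hu'.1)
    · exact h2.symm

lemma finite_bad (H : TreeHyp T) {a b : ℝ} (ha : 0 < a) (hb : 0 < b)
    (hab : ∀ x, a * ‖x‖ ≤ N x ∧ N x ≤ b * ‖x‖) (s : T) (d : E) {ε : ℝ} (hε : 0 < ε) :
    {u | s ⋖ u ∧ ∃ v, SuppIn S v u ∧ N (d + v) + ε ≤ N d}.Finite := by
  by_contra hinf
  set B := {u | s ⋖ u ∧ ∃ v, SuppIn S v u ∧ N (d + v) + ε ≤ N d} with hB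
  have hinf : B.Infinite := hinf
  set K := 2 * N d / a with hK
  have hK0 : 0 ≤ K := by have := apply_nonneg N d; positivity
  obtain ⟨k, hk⟩ := exists_nat_gt (b * K / ε)
  obtain ⟨F, hFB, hFk⟩ := hinf.exists_subset_card_eq k
  have hv : ∀ u : T, ∃ v : E, u ∈ F → SuppIn S v u ∧ N (d + v) + ε ≤ N d := by
    intro u
    by_cases hu : u ∈ F
    · obtain ⟨_, v, hv⟩ := hFB hu
      exact ⟨v, fun _ => hv⟩
    · exact ⟨0, fun h => absurd h hu⟩
  choose v hv using hv
  have hvK : ∀ u ∈ F, ‖v u‖ ≤ K := by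
    intro u hu
    have h1 : N (v u) ≤ 2 * N d := by
      have h2 := N_add_ge (N := N) (v u) d
      rw [add_comm (v u) d] at h2
      have := (hv u hu).2
      linarith
    rw [hK, le_div_iff₀ ha]
    have := (hab (v u)).1
    linarith
  have hw : ‖∑ u ∈ F, v u‖ ≤ K := by
    apply S.norm_le _ _ hK0
    intro x
    rw [map_sum]
    by_cases hx : ∃ u ∈ F, u ≤ x
    · obtain ⟨u, hu, hux⟩ := hx
      rw [Finset.sum_eq_single u]
      · exact (S.abs_ev_le _ _).trans (hvK u hu)
      · intro u' hu' hne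
        apply (hv u' hu').1
        intro h
        exact hne (disj_covers H (hFB hu').1 (hFB hu).1 h hux)
      · intro h; exact absurd hu h
    · push Not at hx
      rw [Finset.sum_eq_zero]
      · simpa using hK0
      · intro u hu
        exact (hv u hu).1 x (hx u hu)
  have h1 : N (k • d + ∑ u ∈ F, v u) ≤ k * (N d - ε) := by
    have e1 : k • d + ∑ u ∈ F, v u = ∑ u ∈ F, (d + v u) := by
      rw [Finset.sum_add_distrib, Finset.sum_const, hFk]
    rw [e1]
    refine (N_sum_le _ _).trans ?_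
    have h2 : ∑ u ∈ F, N (d + v u) ≤ ∑ u ∈ F, (N d - ε) := by
      apply Finset.sum_le_sum
      intro u hu
      have := (hv u hu).2
      linarith
    rw [Finset.sum_const, hFk, nsmul_eq_mul] at h2
    exact h2
  have h2 := N_add_ge (N := N) (k • d) (∑ u ∈ F, v u)
  rw [N_natsmul] at h2
  have h3 : N (∑ u ∈ F, v u) ≤ b * K := (hab _).2.trans (by gcongr)
  rw [div_lt_iff₀ hε] at hk
  linarith

lemma separable_range_P (H : TreeHyp T) (s : T) : ∃ D : Set E, D.Countable ∧ ∀ f, S.P s f ∈ closure D := by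
  have h1 : TopologicalSpace.IsSeparable (S.e '' Set.Iic s) := ((H.cnt s).image _).isSeparable
  have h2 : TopologicalSpace.IsSeparable (Submodule.span ℝ (S.e '' Set.Iic s) : Set E) := h1.span
  obtain ⟨D, hD, hDc⟩ := h2
  refine ⟨D, hD, ?_⟩
  intro f
  have h3 : S.P s f ∈ (Submodule.span ℝ (S.e '' Set.Iic s)).topologicalClosure := by
    refine S.induction (Q := fun f => S.P s f ∈ (Submodule.span ℝ (S.e '' Set.Iic s)).topologicalClosure)
      ?_ ?_ ?_ ?_ ?_ f
    · exact (Submodule.isClosed_topologicalClosure _).preimage (S.P s).continuous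
    · intro t
      rw [S.P_e]
      exact Submodule.le_topologicalClosure _ (Submodule.subset_span ⟨_, inf_le_left, rfl⟩)
    · intro f g hf hg
      rw [map_add]; exact Submodule.add_mem _ hf hg
    · intro c f hf
      rw [map_smul]; exact Submodule.smul_mem _ _ hf
    · rw [map_zero]; exact Submodule.zero_mem _
  exact closure_minimal hDc isClosed_closure h3

lemma countable_bad (H : TreeHyp T) {a b : ℝ} (ha : 0 < a) (hb : 0 < b)
    (hab : ∀ x, a * ‖x‖ ≤ N x ∧ N x ≤ b * ‖x‖) (s : T) :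
    {u | s ⋖ u ∧ ¬ GoodCover S N s u}.Countable := by
  obtain ⟨D, hD, hDc⟩ := separable_range_P (S := S) H s
  have h1 : (⋃ d ∈ D, ⋃ n : ℕ, {u | s ⋖ u ∧ ∃ v, SuppIn S v u ∧ N (d + v) + 1/((n:ℝ)+1) ≤ N d}).Countable := by
    apply hD.biUnion
    intro d _
    apply Set.countable_iUnion
    intro n
    exact (finite_bad H ha hb hab s d (by positivity)).countable
  refine h1.mono ?_
  rintro u ⟨hsu, hbad⟩
  have : ∃ f v, SuppIn S v u ∧ N (S.P s f + v) < N (S.P s f) := by
    by_contra hcon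
    push Not at hcon
    exact hbad ⟨hsu, hcon⟩
  obtain ⟨f, v, hv, hlt⟩ := this
  set η := (N (S.P s f) - N (S.P s f + v)) / 3 with hη
  have hη0 : 0 < η := by rw [hη]; linarith
  obtain ⟨d, hd, hdist⟩ := Metric.mem_closure_iff.1 (hDc f) (η / b) (by positivity)
  have h2 : N (S.P s f - d) ≤ η := by
    refine (hab _).2.trans ?_
    rw [dist_eq_norm, lt_div_iff₀ hb] at hdist
    linarith
  have h3 : N (S.P s f) - η ≤ N d := by
    have := N_add_ge (N := N) (S.P s f) (-(S.P s f - d))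
    rw [map_neg_eq_map] at this
    have e : S.P s f + -(S.P s f - d) = d := by abel
    rw [e] at this
    linarith
  have h4 : N (d + v) ≤ N (S.P s f + v) + η := by
    have e : d + v = (S.P s f + v) + -(S.P s f - d) := by abel
    rw [e]
    refine (map_add_le_add _ _ _).trans ?_
    rw [map_neg_eq_map]
    linarith
  obtain ⟨n, hn⟩ := exists_nat_one_div_lt hη0
  refine Set.mem_biUnion hd (Set.mem_iUnion.2 ⟨n, hsu, v, hv, ?_⟩)
  have : 3 * η = N (S.P s f) - N (S.P s f + v) := by rw [hη]; ring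
  linarith

lemma exists_goodCover (H : TreeHyp T) {a b : ℝ} (ha : 0 < a) (hb : 0 < b)
    (hab : ∀ x, a * ‖x‖ ≤ N x ∧ N x ≤ b * ‖x‖) (s : T) : ∃ u, GoodCover S N s u := by
  by_contra hcon
  push Not at hcon
  apply H.branch s
  refine (countable_bad (S := S) H ha hb hab s).mono ?_
  intro u hu
  exact ⟨hu, hcon u⟩

/-- covers exist. -/
lemma exists_cover (H : TreeHyp T) {s t : T} (h : s < t) : ∃ u, s ⋖ u ∧ u ≤ t := by
  obtain ⟨u, hu, hmin⟩ := H.wf.has_min {x | s < x ∧ x ≤ t} ⟨t, h, le_rfl⟩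
  refine ⟨u, ⟨hu.1, ?_⟩, hu.2⟩
  intro y hy1 hy2
  exact hmin y ⟨hy1, hy2.le.trans hu.2⟩ hy2

lemma Good.N_le (H : TreeHyp T) {s t : T} (h : s ≤ t) (ht : Good S N t) (f : E) :
    N (S.P s f) ≤ N (S.P t f) := by
  rcases h.eq_or_lt with rfl | hlt
  · rfl
  · obtain ⟨u, hu, hut⟩ := exists_cover H hlt
    have h1 := (ht s u hlt hu hut).2 f (S.P t f - S.P s f) ?_
    · rwa [add_sub_cancel] at h1
    · intro x hx
      rw [map_sub, S.ev_P, S.ev_P]
      by_cases hxt : x ≤ t
      · rw [if_pos hxt]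
        have hxs : x ≤ s := by
          have hxu : x < u := by
            rcases H.lin t x u hxt hut with h2 | h2
            · exact lt_of_le_not_ge h2 hx
            · exact absurd h2 hx
          rcases H.lin t x s hxt h with h3 | h3
          · exact h3
          · rcases h3.eq_or_lt with h4 | h4
            · exact h4.symm.le
            · exact absurd hxu (hu.2 h4)
        rw [if_pos hxs, sub_self]
      · have hxs : ¬ x ≤ s := fun h2 => hxt (h2.trans h)
        rw [if_neg hxt, if_neg hxs, sub_self]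

lemma Good.cover (H : TreeHyp T) {s u : T} (hs : Good S N s) (hu : GoodCover S N s u) : Good S N u := by
  intro x y hxu hxy hyu
  have hsu := hu.1
  have hxs : x ≤ s := by
    rcases H.lin u x s hxu.le hsu.1.le with h | h
    · exact h
    · rcases h.eq_or_lt with h1 | h1
      · exact h1.symm.le
      · exact absurd hxu (hsu.2 h1)
  rcases hxs.eq_or_lt with h | h
  · subst h
    have : y = u := by
      rcases hyu.eq_or_lt with h1 | h1
      · exact h1
      · exact absurd h1 (hsu.2 hxy.1)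
    rw [this]; exact hu
  · have hys : y ≤ s := by
      rcases H.lin u y s hyu hsu.1.le with h1 | h1
      · exact h1
      · rcases h1.eq_or_lt with h2 | h2
        · exact h2.symm.le
        · exact absurd h2 (hxy.2 h)
    exact hs x y h hxy hys

lemma le_of_lub (H : TreeHyp T) {s : ℕ → T} {t : T} (ht : IsLUB (range s) t)
    {x y : T} (hxy : x ⋖ y) (hyt : y ≤ t) : ∃ n, y ≤ s n := by
  by_contra hcon
  push Not at hcon
  have h1 : t ≤ x := by
    apply ht.2
    rintro _ ⟨n, rfl⟩
    have hnt : s n ≤ t := ht.1 ⟨n, rfl⟩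
    have hny : s n < y := by
      rcases H.lin t (s n) y hnt hyt with h | h
      · refine lt_of_le_of_ne h ?_
        rintro rfl
        exact hcon n le_rfl
      · exact absurd h (hcon n)
    rcases H.lin t (s n) x hnt (hxy.1.le.trans hyt) with h | h
    · exact h
    · rcases h.eq_or_lt with h2 | h2
      · exact h2.symm.le
      · exact absurd hny (hxy.2 h2)
  exact absurd (hxy.1.trans_le hyt) (not_lt_of_ge h1)

lemma Good.lub (H : TreeHyp T) {s : ℕ → T} {t : T} (ht : IsLUB (range s) t) (hs : ∀ n, Good S N (s n)) :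
    Good S N t := by
  intro x y hxt hxy hyt
  obtain ⟨n, hn⟩ := le_of_lub H ht hxy hyt
  exact hs n x y (hxy.1.trans_le hn) hxy hn

lemma exists_Good (H : TreeHyp T) : ∃ t, Good S N t := by
  obtain ⟨t, _, ht⟩ := H.wf.has_min Set.univ ⟨H.ne.some, trivial⟩
  exact ⟨t, fun s u hst _ _ => absurd hst (ht s trivial)⟩

/-- one stabilisation step -/
lemma stabilise (H : TreeHyp T) (F : T → ℝ) (s0 : T) (hs0 : Good S N s0) (B : ℝ)
    (hB : ∀ t, F t ≤ B) (hF : ∀ s t, s0 ≤ s → s ≤ t → Good S N t → F s ≤ F t) :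
    ∃ s1, s0 ≤ s1 ∧ Good S N s1 ∧ ∀ t, s1 ≤ t → Good S N t → F t = F s1 := by
  -- M s = sup of F above s
  let A : T → Set ℝ := fun s => {y | ∃ t, s ≤ t ∧ Good S N t ∧ y = F t}
  have hAb : ∀ s, BddAbove (A s) := fun s => ⟨B, by rintro _ ⟨t, _, _, rfl⟩; exact hB t⟩
  have hstep : ∀ (n : ℕ) (s : T), ∃ t, Good S N s → (s ≤ t ∧ Good S N t ∧ sSup (A s) - 1/((n:ℝ)+1) < F t) := by
    intro n s
    by_cases hs : Good S N s
    · have hne : (A s).Nonempty := ⟨F s, s, le_rfl, hs, rfl⟩
      have hpos : (0:ℝ) < 1/((n:ℝ)+1) := by positivity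
      obtain ⟨_, ⟨t, ht1, ht2, rfl⟩, hlt⟩ := exists_lt_of_lt_csSup hne (sub_lt_self (sSup (A s)) hpos)
      exact ⟨t, fun _ => ⟨ht1, ht2, hlt⟩⟩
    · exact ⟨s, fun h => absurd h hs⟩
  choose G hG using hstep
  let c : ℕ → T := fun n => Nat.rec s0 (fun n x => G n x) n
  have hc0 : c 0 = s0 := rfl
  have hc1 : ∀ n, c (n+1) = G n (c n) := fun n => rfl
  have hcg : ∀ n, Good S N (c n) := by
    intro n
    induction n with
    | zero => exact hs0
    | succ n ih => rw [hc1]; exact (hG n _ ih).2.1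
  have hcm : Monotone c := by
    apply monotone_nat_of_le_succ
    intro n
    rw [hc1]; exact (hG n _ (hcg n)).1
  obtain ⟨s1, hs1⟩ := H.lub c hcm
  have hs1g : Good S N s1 := Good.lub H hs1 hcg
  have hle : ∀ n, c n ≤ s1 := fun n => hs1.1 ⟨n, rfl⟩
  refine ⟨s1, hle 0, hs1g, ?_⟩
  intro t ht htg
  apply le_antisymm
  · have : ∀ n : ℕ, F t - 1/((n:ℝ)+1) ≤ F s1 := by
      intro n
      have h1 : F t ≤ sSup (A (c n)) := le_csSup (hAb _) ⟨t, (hle n).trans ht, htg, rfl⟩
      have h2 := (hG n _ (hcg n)).2.2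
      rw [← hc1] at h2
      have h00 : s0 ≤ c (n+1) := hcm (Nat.zero_le (n+1))
      have h3 : F (c (n+1)) ≤ F s1 := hF _ _ h00 (hle (n+1)) hs1g
      linarith
    have h1 : Tendsto (fun n : ℕ => F t - 1/((n:ℝ)+1)) atTop (𝓝 (F t - 0)) :=
      tendsto_const_nhds.sub tendsto_one_div_add_atTop_nhds_zero_nat
    rw [sub_zero] at h1
    exact le_of_tendsto' h1 this
  · exact hF _ _ (hle 0) ht htg

/-- countably many stabilisations -/
lemma stabilise_countable (H : TreeHyp T) (F : ℕ → T → ℝ) (s0 : T) (hs0 : Good S N s0) (B : ℕ → ℝ)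
    (hB : ∀ i t, F i t ≤ B i) (hF : ∀ i s t, s0 ≤ s → s ≤ t → Good S N t → F i s ≤ F i t) :
    ∃ s1, s0 ≤ s1 ∧ Good S N s1 ∧ ∀ i t, s1 ≤ t → Good S N t → F i t = F i s1 := by
  have hstep : ∀ (n : ℕ) (s : T), ∃ t, (s0 ≤ s ∧ Good S N s) → (s ≤ t ∧ Good S N t ∧
      ∀ t', t ≤ t' → Good S N t' → F n t' = F n t) := by
    intro n s
    by_cases hs : s0 ≤ s ∧ Good S N s
    · obtain ⟨t, ht⟩ := stabilise H (F n) s hs.2 (B n) (hB n) (fun x y hx => hF n x y (hs.1.trans hx))
      exact ⟨t, fun _ => ht⟩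
    · exact ⟨s, fun h => absurd h hs⟩
  choose G hG using hstep
  let c : ℕ → T := fun n => Nat.rec s0 (fun n x => G n x) n
  have hc1 : ∀ n, c (n+1) = G n (c n) := fun n => rfl
  have hcg : ∀ n, s0 ≤ c n ∧ Good S N (c n) := by
    intro n
    induction n with
    | zero => exact ⟨le_rfl, hs0⟩
    | succ n ih => rw [hc1]; exact ⟨ih.1.trans (hG n _ ih).1, (hG n _ ih).2.1⟩
  have hcm : Monotone c := by
    apply monotone_nat_of_le_succ
    intro n
    rw [hc1]; exact (hG n _ (hcg n)).1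
  obtain ⟨s1, hs1⟩ := H.lub c hcm
  have hs1g : Good S N s1 := Good.lub H hs1 (fun n => (hcg n).2)
  have hle : ∀ n, c n ≤ s1 := fun n => hs1.1 ⟨n, rfl⟩
  refine ⟨s1, hle 0, hs1g, ?_⟩
  intro i t ht htg
  have h1 := (hG i _ (hcg i)).2.2 t ?_ htg
  have h2 := (hG i _ (hcg i)).2.2 s1 ?_ hs1g
  · rw [h1, h2]
  · rw [← hc1]; exact hle (i+1)
  · rw [← hc1]; exact (hle (i+1)).trans ht

lemma N_continuous {b : ℝ} (hb : 0 < b) (hab : ∀ x, N x ≤ b * ‖x‖) : Continuous N := by
  have : LipschitzWith ⟨b, hb.le⟩ N := by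
    apply LipschitzWith.of_dist_le_mul
    intro x y
    rw [Real.dist_eq, dist_eq_norm]
    have h1 : N x - N y ≤ N (x - y) := by
      have h2 := map_add_le_add N (x - y) y
      rw [sub_add_cancel] at h2
      linarith
    have h2 : N y - N x ≤ N (x - y) := by
      have h2 := map_add_le_add N (y - x) x
      rw [sub_add_cancel, map_sub_rev] at h2
      linarith
    have h3 := hab (x - y)
    rw [abs_le]
    constructor
    · change -(b * ‖x - y‖) ≤ _
      linarith
    · change _ ≤ (b * ‖x - y‖)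
      linarith
  exact this.continuous

lemma norm_Ext_le' (s t : T) (f : E) : ‖S.Ext s t f‖ ≤ 3 * ‖f‖ := by
  rw [S.Ext_apply]
  have h1 := S.norm_P_le s f
  have h2 : ‖S.e t - S.e s‖ ≤ 2 := (norm_sub_le _ _).trans (by
    have := S.norm_e_le t; have := S.norm_e_le s; linarith)
  have h3 := S.abs_ev_le s f
  refine (norm_add_le _ _).trans ?_
  rw [norm_smul, Real.norm_eq_abs]
  have h4 : |S.ev s f| * ‖S.e t - S.e s‖ ≤ ‖f‖ * 2 := by gcongr
  linarith

lemma tendsto_Ext (H : TreeHyp T) {s : ℕ → T} (hs : Monotone s) {t t' : T} (ht : IsLUB (range s) t)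
    (htt' : t ≤ t') (f : E) : Tendsto (fun n => S.Ext (s n) t' f) atTop (𝓝 (S.Ext t t' f)) := by
  have hle : ∀ n, s n ≤ t := fun n => ht.1 ⟨n, rfl⟩
  refine S.induction (Q := fun f => Tendsto (fun n => S.Ext (s n) t' f) atTop (𝓝 (S.Ext t t' f)))
    ?_ ?_ ?_ ?_ ?_ f
  · apply isClosed_of_closure_subset
    intro f hf
    change Tendsto _ _ _
    rw [Metric.tendsto_atTop]
    intro ε hε
    obtain ⟨g, hg, hfg⟩ := Metric.mem_closure_iff.1 hf (ε / 3) (by positivity)
    obtain ⟨n0, hn0⟩ := Metric.tendsto_atTop.1 hg (ε / 3) (by positivity)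
    refine ⟨n0, fun n hn => ?_⟩
    have h1 := hn0 n hn
    rw [dist_eq_norm] at h1 hfg ⊢
    have h2 : ‖S.Ext (s n) t' (f - g)‖ ≤ ‖f - g‖ := S.norm_Ext_le ((hle n).trans htt') _
    have h3 : ‖S.Ext t t' (f - g)‖ ≤ ‖f - g‖ := S.norm_Ext_le htt' _
    have h4 : S.Ext (s n) t' f - S.Ext t t' f = S.Ext (s n) t' (f - g) +
      (S.Ext (s n) t' g - S.Ext t t' g) - S.Ext t t' (f - g) := by
      rw [map_sub, map_sub]; abel
    rw [h4]
    refine (norm_sub_le _ _).trans_lt ?_
    have h5 := norm_add_le (S.Ext (s n) t' (f - g)) (S.Ext (s n) t' g - S.Ext t t' g)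
    linarith
  · intro x
    by_cases hx : t ≤ x
    · have h1 : ∀ n, S.Ext (s n) t' (S.e x) = S.e t' := by
        intro n
        rw [S.Ext_apply, S.P_e, S.ev_e, if_pos ((hle n).trans hx), inf_eq_left.2 ((hle n).trans hx)]
        module
      have h2 : S.Ext t t' (S.e x) = S.e t' := by
        rw [S.Ext_apply, S.P_e, S.ev_e, if_pos hx, inf_eq_left.2 hx]
        module
      simp only [h1, h2]
      exact tendsto_const_nhds
    · have : ∃ n0, ¬ s n0 ≤ x := by
        by_contra hcon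
        push Not at hcon
        exact hx (ht.2 (by rintro _ ⟨n, rfl⟩; exact hcon n))
      obtain ⟨n0, hn0⟩ := this
      apply tendsto_const_nhds.congr'
      filter_upwards [Filter.eventually_ge_atTop n0] with n hn
      have hn1 : ¬ s n ≤ x := fun h => hn0 ((hs hn).trans h)
      rw [S.Ext_apply, S.P_e, S.ev_e, if_neg hx, S.Ext_apply, S.P_e, S.ev_e, if_neg hn1]
      have : t ⊓ x = s n ⊓ x := by
        apply le_antisymm
        · rcases H.lin t (t ⊓ x) (s n) inf_le_left (hle n) with h | h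
          · exact le_inf h inf_le_right
          · exact absurd (h.trans inf_le_right) hn1
        · exact inf_le_inf_right _ (hle n)
      rw [this, zero_smul, zero_smul]
  · intro f g hf hg
    simp only [map_add]
    exact hf.add hg
  · intro c f hf
    simp only [map_smul]
    exact hf.const_smul c
  · simp only [map_zero]
    exact tendsto_const_nhds

lemma stab_step (H : TreeHyp T) {b : ℝ} (hb : 0 < b)
    (hab : ∀ x, N x ≤ b * ‖x‖) (s : T) (hs : Good S N s) :
    ∃ s1, s ≤ s1 ∧ Good S N s1 ∧ ∀ t, s1 ≤ t → Good S N t → ∀ f, N (S.Ext s t f) = N (S.Ext s s1 f) := by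
  obtain ⟨D, hD, hDc⟩ := separable_range_P (S := S) H s
  have hDne : D.Nonempty := by
    have := hDc 0
    by_contra h
    rw [Set.not_nonempty_iff_eq_empty] at h
    rw [h, closure_empty] at this
    exact this
  obtain ⟨d, rfl⟩ := hD.exists_eq_range hDne
  have hB : ∀ (i : ℕ) (t : T), N (S.Ext s t (d i)) ≤ b * (3 * ‖d i‖) := by
    intro i t
    refine (hab _).trans ?_
    have := norm_Ext_le' (S := S) s t (d i)
    gcongr
  have hF : ∀ (i : ℕ) (x t : T), s ≤ x → x ≤ t → Good S N t → N (S.Ext s x (d i)) ≤ N (S.Ext s t (d i)) := by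
    intro i x t hx hxt htg
    have h4 := Good.N_le H hxt htg (S.Ext s t (d i))
    rwa [S.P_Ext hx hxt, S.P_Ext (hx.trans hxt) le_rfl] at h4
  obtain ⟨s1, h1, h2, h3⟩ := stabilise_countable (S := S) (N := N) H (fun i t => N (S.Ext s t (d i))) s hs
    (fun i => b * (3 * ‖d i‖)) hB hF
  · refine ⟨s1, h1, h2, ?_⟩
    intro t ht htg f
    rw [← S.Ext_P (s := s) (t := t) f, ← S.Ext_P (s := s) (t := s1) f]
    have hcl : IsClosed {g | N (S.Ext s t g) = N (S.Ext s s1 g)} :=
      isClosed_eq ((N_continuous hb hab).comp (S.Ext s t).continuous)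
        ((N_continuous hb hab).comp (S.Ext s s1).continuous)
    have := closure_minimal (s := range d) (t := {g | N (S.Ext s t g) = N (S.Ext s s1 g)}) ?_ hcl
    · exact this (hDc f)
    · rintro _ ⟨i, rfl⟩
      exact h3 i t ht htg

variable (S N) in
def Stable (t : T) : Prop :=
  Good S N t ∧ ∀ t', t ≤ t' → Good S N t' → ∀ f, N (S.Ext t t' f) = N (S.P t f)

lemma exists_stable (H : TreeHyp T) {b : ℝ} (hb : 0 < b)
    (hab : ∀ x, N x ≤ b * ‖x‖) (s : T) (hs : Good S N s) : ∃ t, s ≤ t ∧ Stable S N t := by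
  have hstep : ∀ s : T, ∃ t, Good S N s → (s ≤ t ∧ Good S N t ∧
      ∀ t', t ≤ t' → Good S N t' → ∀ f, N (S.Ext s t' f) = N (S.Ext s t f)) := by
    intro s
    by_cases hs : Good S N s
    · obtain ⟨t, ht⟩ := stab_step H hb hab s hs
      exact ⟨t, fun _ => ht⟩
    · exact ⟨s, fun h => absurd h hs⟩
  choose G hG using hstep
  let c : ℕ → T := fun n => Nat.rec s (fun _ x => G x) n
  have hc1 : ∀ n, c (n+1) = G (c n) := fun n => rfl
  have hcg : ∀ n, Good S N (c n) := by
    intro n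
    induction n with
    | zero => exact hs
    | succ n ih => rw [hc1]; exact (hG _ ih).2.1
  have hcm : Monotone c := by
    apply monotone_nat_of_le_succ
    intro n
    rw [hc1]; exact (hG _ (hcg n)).1
  obtain ⟨t, ht⟩ := H.lub c hcm
  have htg : Good S N t := Good.lub H ht hcg
  have hle : ∀ n, c n ≤ t := fun n => ht.1 ⟨n, rfl⟩
  refine ⟨t, hle 0, htg, ?_⟩
  intro t' htt' ht'g f
  have hcont := N_continuous hb hab
  have h1 : Tendsto (fun n => N (S.Ext (c n) t' f)) atTop (𝓝 (N (S.Ext t t' f))) :=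
    (hcont.tendsto _).comp (tendsto_Ext H hcm ht htt' f)
  have h2 : Tendsto (fun n => N (S.Ext (c n) t f)) atTop (𝓝 (N (S.P t f))) := by
    rw [← S.Ext_self t f]
    exact (hcont.tendsto _).comp (tendsto_Ext H hcm ht le_rfl f)
  have h3 : ∀ n, N (S.Ext (c n) t' f) = N (S.Ext (c n) t f) := by
    intro n
    have h4 := (hG _ (hcg n)).2.2 t' (by rw [← hc1]; exact (hle (n+1)).trans htt') ht'g f
    have h5 := (hG _ (hcg n)).2.2 t (by rw [← hc1]; exact (hle (n+1))) htg f
    rw [h4, h5]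
  simp only [h3] at h1
  exact tendsto_nhds_unique h1 h2

lemma CH_induction {f : ℕ → E} {m : ℕ} {C : Set E} (hC : Convex ℝ C) (hcl : IsClosed C)
    (h : ∀ k, m ≤ k → f k ∈ C) {v : E} (hv : v ∈ CH f m) : v ∈ C := by
  have h1 : CH f m ⊆ C := by
    apply closure_minimal _ hcl
    apply convexHull_min _ hC
    rintro _ ⟨k, hk, rfl⟩
    exact h k hk
  exact h1 hv

variable [CompleteSpace E]

variable (S) in
include S in
theorem not_SSD (H : TreeHyp T) (N : Seminorm ℝ E) {a b : ℝ} (ha : 0 < a) (hb : 0 < b)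
    (hab : ∀ x, a * ‖x‖ ≤ N x ∧ N x ≤ b * ‖x‖) : ¬ ∀ x, IsSSDAt N x := by
  have hab' : ∀ x, N x ≤ b * ‖x‖ := fun x => (hab x).2
  obtain ⟨s0, hs0⟩ := exists_Good (S := S) (N := N) H
  obtain ⟨s1, _, hs1⟩ := exists_stable H hb hab' s0 hs0
  have hstep : ∀ s : T, ∃ t, Stable S N s → (s < t ∧ Stable S N t) := by
    intro s
    by_cases hs : Stable S N s
    · obtain ⟨u, hu⟩ := exists_goodCover (S := S) H ha hb hab s
      obtain ⟨t, ht1, ht2⟩ := exists_stable H hb hab' u (hs.1.cover H hu)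
      exact ⟨t, fun _ => ⟨hu.1.1.trans_le ht1, ht2⟩⟩
    · exact ⟨s, fun h => absurd h hs⟩
  choose G hG using hstep
  let c : ℕ → T := fun n => Nat.rec s1 (fun _ x => G x) n
  have hc1 : ∀ n, c (n+1) = G (c n) := fun n => rfl
  have hcs : ∀ n, Stable S N (c n) := by
    intro n
    induction n with
    | zero => exact hs1
    | succ n ih => rw [hc1]; exact (hG _ ih).2
  have hclt : ∀ n, c n < c (n+1) := by
    intro n
    rw [hc1]; exact (hG _ (hcs n)).1
  have hcm : Monotone c := monotone_nat_of_le_succ (fun n => (hclt n).le)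
  obtain ⟨t, ht⟩ := H.lub c hcm
  have htg : Good S N t := Good.lub H ht (fun n => (hcs n).1)
  have hle : ∀ n, c n ≤ t := fun n => ht.1 ⟨n, rfl⟩
  have hlt : ∀ n, ¬ t ≤ c n := fun n => not_le_of_gt ((hclt n).trans_le (hle (n+1)))
  set f : ℕ → E := fun m => S.e t - S.e (c m) with hf
  have hcont := N_continuous hb hab'
  refine core_lemma N ha hb hab (f := f) ?_ ha ?_ ?_
  · intro m
    apply S.norm_le _ _ zero_le_one
    intro x
    change |S.ev x (S.e t - S.e (c m))| ≤ 1
    rw [map_sub, S.ev_e, S.ev_e]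
    rcases Classical.em (x ≤ c m) with h1 | h1
    · rw [if_pos h1, if_pos (h1.trans (hle m))]; simp
    · rw [if_neg h1]
      rcases Classical.em (x ≤ t) with h2 | h2
      · rw [if_pos h2]; simp
      · rw [if_neg h2]; simp
  · intro v hv
    have h1 : v ∈ {v | S.ev t v = 1} := by
      refine CH_induction ?_ ?_ ?_ hv
      · exact (convex_singleton (1:ℝ)).linear_preimage (S.ev t : E →ₗ[ℝ] ℝ)
      · exact isClosed_eq (S.ev t).continuous continuous_const
      · intro k _
        change S.ev t (S.e t - S.e (c k)) = 1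
        rw [map_sub, S.ev_e, S.ev_e, if_pos le_rfl, if_neg (hlt k), sub_zero]
    have h2 := S.abs_ev_le t v
    rw [show S.ev t v = 1 from h1, abs_one] at h2
    have h3 := (hab v).1
    nlinarith
  · intro h hh
    have hPt : ∀ m, ∀ v ∈ CH f m, S.P t v = v := by
      intro m v hv
      have h1 : v ∈ {v | S.P t v = v} := by
        refine CH_induction ?_ ?_ ?_ hv
        · intro x hx y hy α β _ _ _
          change S.P t (α • x + β • y) = α • x + β • y
          rw [map_add, map_smul, map_smul, show S.P t x = x from hx, show S.P t y = y from hy]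
        · exact isClosed_eq (S.P t).continuous continuous_id
        · intro k _
          change S.P t (S.e t - S.e (c k)) = _
          rw [map_sub, S.P_e, S.P_e, inf_idem, inf_eq_right.2 (hle k)]
      exact h1
    have hPc : ∀ m, ∀ v ∈ CH f m, S.P (c m) v = 0 := by
      intro m v hv
      have h1 : v ∈ {v | S.P (c m) v = 0} := by
        refine CH_induction ?_ ?_ ?_ hv
        · intro x hx y hy α β _ _ _
          change S.P (c m) (α • x + β • y) = 0
          rw [map_add, map_smul, map_smul, show S.P (c m) x = 0 from hx, show S.P (c m) y = 0 from hy]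
          simp
        · exact isClosed_eq (S.P (c m)).continuous continuous_const
        · intro k hk
          change S.P (c m) (S.e t - S.e (c k)) = _
          rw [map_sub, S.P_e, S.P_e, inf_eq_left.2 (hle m), inf_eq_left.2 (hcm hk), sub_self]
      exact h1
    refine ⟨fun n => N (S.P (c n) h), ?_, ?_⟩
    · have h1 : Tendsto (fun n => N (S.Ext (c n) t h)) atTop (𝓝 (N h)) := by
        have h2 := (hcont.tendsto _).comp (tendsto_Ext (S := S) H hcm ht le_rfl h)
        rw [S.Ext_self, hPt 0 h hh] at h2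
        exact h2
      refine h1.congr ?_
      intro n
      exact (hcs n).2 t (hle n) htg h
    · intro n σ v hv
      have h1 := Good.N_le H (hle n) htg (h - σ • v)
      rw [map_sub, map_smul, hPc n v hv, smul_zero, sub_zero, map_sub, map_smul, hPt n v hv, hPt 0 h hh] at h1
      exact h1

end tree
end SSD
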