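import Pool.Agent.H9.SSDc

open Set Filter Topology
open scoped Classical

namespace SSD

section asplund

variable {T E : Type} [SemilatticeInf T] [NormedAddCommGroup E] [NormedSpace ℝ E]
variable (S : TreeSys T E)

/-- closed span of the evaluations -/
noncomputable def VV : Submodule ℝ (E →L[ℝ] ℝ) := (Submodule.span ℝ (Set.range S.ev)).topologicalClosure

variable {S}

lemma ev_mem (x : T) : S.ev x ∈ VV S := Submodule.le_topologicalClosure _ (Submodule.subset_span ⟨x, rfl⟩)

lemma mem_VV_of_approx {μ : E →L[ℝ] ℝ} (h : ∀ ε > 0, ∃ ν ∈ VV S, ‖μ - ν‖ ≤ ε) : μ ∈ VV S := by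
  have hcl : IsClosed (VV S : Set (E →L[ℝ] ℝ)) := Submodule.isClosed_topologicalClosure _
  have : μ ∈ closure (VV S : Set (E →L[ℝ] ℝ)) := by
    rw [Metric.mem_closure_iff]
    intro ε hε
    obtain ⟨ν, hν, h1⟩ := h (ε / 2) (by positivity)
    exact ⟨ν, hν, by rw [dist_eq_norm]; linarith⟩
  rwa [hcl.closure_eq] at this

/-- left limits -/
lemma left_cont (H : TreeHyp T) (x : T) (f : E) : ∀ δ > 0, ∀ y < x, ∃ y', y ≤ y' ∧ y' < x ∧ ∀ z, y' ≤ z → z < x →
    ‖S.P x f - S.P z f - S.ev x f • (S.e x - S.e z)‖ ≤ δ := by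
  refine S.induction (Q := fun f => ∀ δ > 0, ∀ y < x, ∃ y', y ≤ y' ∧ y' < x ∧ ∀ z, y' ≤ z → z < x →
    ‖S.P x f - S.P z f - S.ev x f • (S.e x - S.e z)‖ ≤ δ) ?_ ?_ ?_ ?_ ?_ f
  · apply isClosed_of_closure_subset
    intro f hf δ hδ y hy
    obtain ⟨g, hg, hfg⟩ := Metric.mem_closure_iff.1 hf (δ / 8) (by positivity)
    obtain ⟨y', h1, h2, h3⟩ := hg (δ / 8) (by positivity) y hy
    refine ⟨y', h1, h2, fun z hz1 hz2 => ?_⟩
    have h4 := h3 z hz1 hz2
    rw [dist_eq_norm] at hfg
    have h5 : S.P x f - S.P z f - S.ev x f • (S.e x - S.e z) =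
      (S.P x g - S.P z g - S.ev x g • (S.e x - S.e z)) + S.P x (f - g) - S.P z (f - g) -
        S.ev x (f - g) • (S.e x - S.e z) := by
      rw [map_sub, map_sub, map_sub, sub_smul]; abel
    rw [h5]
    have h6 := S.norm_P_le x (f - g)
    have h7 := S.norm_P_le z (f - g)
    have h8 : ‖S.ev x (f - g) • (S.e x - S.e z)‖ ≤ ‖f - g‖ * 2 := by
      rw [norm_smul, Real.norm_eq_abs]
      have h2 : ‖S.e x - S.e z‖ ≤ 2 := (norm_sub_le _ _).trans (by
        have := S.norm_e_le x; have := S.norm_e_le z; linarith)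
      have := S.abs_ev_le x (f - g)
      gcongr
    refine (norm_sub_le _ _).trans ?_
    have h9 := norm_sub_le ((S.P x g - S.P z g - S.ev x g • (S.e x - S.e z)) + S.P x (f - g)) (S.P z (f - g))
    have h10 := norm_add_le (S.P x g - S.P z g - S.ev x g • (S.e x - S.e z)) (S.P x (f - g))
    linarith
  · intro t δ hδ y hy
    by_cases hxt : x ≤ t
    · refine ⟨y, le_rfl, hy, fun z _ hz => ?_⟩
      rw [S.P_e, S.P_e, S.ev_e, if_pos hxt, inf_eq_left.2 hxt, inf_eq_left.2 (hz.le.trans hxt), one_smul,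
        sub_self, norm_zero]
      exact hδ.le
    · have hlt : x ⊓ t < x := lt_of_le_of_ne inf_le_left (fun h => hxt (inf_eq_left.1 h))
      have hmax : ∃ y', y ≤ y' ∧ x ⊓ t ≤ y' ∧ y' < x := by
        rcases H.lin x y (x ⊓ t) hy.le inf_le_left with h | h
        · exact ⟨x ⊓ t, h, le_rfl, hlt⟩
        · exact ⟨y, le_rfl, h, hy⟩
      obtain ⟨y', h1, h2, h3⟩ := hmax
      refine ⟨y', h1, h3, fun z hz1 hz2 => ?_⟩
      have : z ⊓ t = x ⊓ t := by
        apply le_antisymm
        · exact inf_le_inf_right _ hz2.le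
        · exact le_inf (h2.trans hz1) inf_le_right
      rw [S.P_e, S.P_e, S.ev_e, if_neg hxt, this, zero_smul, sub_zero, sub_self, norm_zero]
      exact hδ.le
  · intro f g hf hg δ hδ y hy
    obtain ⟨y1, h1, h2, h3⟩ := hf (δ / 2) (by positivity) y hy
    obtain ⟨y2, h4, h5, h6⟩ := hg (δ / 2) (by positivity) y1 h2
    refine ⟨y2, h1.trans h4, h5, fun z hz1 hz2 => ?_⟩
    have h7 := h3 z (h4.trans hz1) hz2
    have h8 := h6 z hz1 hz2
    have h9 : S.P x (f + g) - S.P z (f + g) - S.ev x (f + g) • (S.e x - S.e z) =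
      (S.P x f - S.P z f - S.ev x f • (S.e x - S.e z)) + (S.P x g - S.P z g - S.ev x g • (S.e x - S.e z)) := by
      rw [map_add, map_add, map_add, add_smul]; abel
    rw [h9]
    refine (norm_add_le _ _).trans ?_
    linarith
  · intro c f hf δ hδ y hy
    obtain ⟨y1, h1, h2, h3⟩ := hf (δ / (|c| + 1)) (by positivity) y hy
    refine ⟨y1, h1, h2, fun z hz1 hz2 => ?_⟩
    have h7 := h3 z hz1 hz2
    have h9 : S.P x (c • f) - S.P z (c • f) - S.ev x (c • f) • (S.e x - S.e z) =
      c • (S.P x f - S.P z f - S.ev x f • (S.e x - S.e z)) := by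
      rw [map_smul, map_smul, map_smul]; module
    rw [h9, norm_smul, Real.norm_eq_abs]
    rw [le_div_iff₀ (by positivity)] at h7
    nlinarith [norm_nonneg (S.P x f - S.P z f - S.ev x f • (S.e x - S.e z)), abs_nonneg c]
  · intro δ hδ y hy
    refine ⟨y, le_rfl, hy, fun z _ _ => ?_⟩
    simpa using hδ.le

/-- norm of disjoint sum -/
lemma norm_disj {y y' x : T} (h1 : y ≤ y') (h2 : y' ≤ x) (f g : E) {C : ℝ} (hf : ‖f‖ ≤ C) (hg : ‖g‖ ≤ C) :
    ‖(S.P y' f - S.P y f) + (S.P x g - S.P y' g)‖ ≤ C := by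
  apply S.norm_le _ _ ((norm_nonneg _).trans hf)
  intro z
  rw [map_add, map_sub, map_sub, S.ev_P, S.ev_P, S.ev_P, S.ev_P]
  have hf' := (S.abs_ev_le z f).trans hf
  have hg' := (S.abs_ev_le z g).trans hg
  have hC := (norm_nonneg _).trans hf
  by_cases hzx : z ≤ x
  · by_cases hzy' : z ≤ y'
    · by_cases hzy : z ≤ y
      · simpa [hzx, hzy', hzy] using hC
      · simpa [hzx, hzy', hzy] using hf'
    · have hzy : ¬ z ≤ y := fun h => hzy' (h.trans h1)
      simpa [hzx, hzy', hzy] using hg'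
  · have hzy' : ¬ z ≤ y' := fun h => hzx (h.trans h2)
    have hzy : ¬ z ≤ y := fun h => hzy' (h.trans h1)
    simpa [hzx, hzy', hzy] using hC

/-- mu restricted to (y,x] -/
noncomputable def mid (S : TreeSys T E) (μ : E →L[ℝ] ℝ) (y x : T) : E →L[ℝ] ℝ := μ ∘L (S.P x - S.P y)

lemma mid_apply (μ : E →L[ℝ] ℝ) (y x : T) (f : E) : mid S μ y x f = μ (S.P x f - S.P y f) := rfl

lemma mid_add {y y' x : T} (h1 : y ≤ y') (h2 : y' ≤ x) (μ : E →L[ℝ] ℝ) :
    ‖mid S μ y y'‖ + ‖mid S μ y' x‖ ≤ ‖mid S μ y x‖ := by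
  have key : ∀ f g, mid S μ y y' f + mid S μ y' x g ≤ ‖mid S μ y x‖ * max ‖f‖ ‖g‖ := by
    intro f g
    have hn := norm_disj (S := S) h1 h2 f g (le_max_left ‖f‖ ‖g‖) (le_max_right ‖f‖ ‖g‖)
    set k := (S.P y' f - S.P y f) + (S.P x g - S.P y' g) with hk
    have hk1 : S.P x k - S.P y k = k := by
      rw [hk]
      simp only [map_add, map_sub]
      rw [S.P_P_of_ge h2, S.P_P_of_ge (h1.trans h2), S.P_P_of_ge le_rfl, S.P_P_of_ge h2,
        S.P_P_of_le h1, S.P_P_of_le le_rfl, S.P_P_of_le (h1.trans h2), S.P_P_of_le h1]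
      abel
    have h3 : mid S μ y x k = mid S μ y y' f + mid S μ y' x g := by
      rw [mid_apply, hk1, hk, map_add, mid_apply, mid_apply]
    rw [← h3]
    refine (le_abs_self _).trans ?_
    rw [← Real.norm_eq_abs]
    refine ((mid S μ y x).le_opNorm k).trans ?_
    gcongr
  have h4 : ∀ g, ‖g‖ ≤ 1 → ‖mid S μ y y'‖ ≤ ‖mid S μ y x‖ - mid S μ y' x g := by
    intro g hg
    have hnn : 0 ≤ ‖mid S μ y x‖ - mid S μ y' x g := by
      have := key 0 g
      rw [map_zero, zero_add, norm_zero, max_eq_right (norm_nonneg _)] at this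
      have h5 : ‖mid S μ y x‖ * ‖g‖ ≤ ‖mid S μ y x‖ := mul_le_of_le_one_right (norm_nonneg _) hg
      linarith
    apply ContinuousLinearMap.opNorm_le_of_unit_norm hnn
    intro f hf
    rw [Real.norm_eq_abs, abs_le]
    constructor
    · have := key (-f) g
      rw [map_neg, norm_neg, hf, max_eq_left hg] at this
      linarith
    · have := key f g
      rw [hf, max_eq_left hg] at this
      linarith
  have h5 : ‖mid S μ y' x‖ ≤ ‖mid S μ y x‖ - ‖mid S μ y y'‖ := by
    apply ContinuousLinearMap.opNorm_le_of_unit_norm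
    · have := h4 0 (by simp)
      rw [map_zero, sub_zero] at this
      linarith
    · intro g hg
      rw [Real.norm_eq_abs, abs_le]
      constructor
      · have := h4 (-g) (by rw [norm_neg, hg])
        rw [map_neg] at this
        linarith
      · have := h4 g hg.le
        linarith
  linarith

lemma comp_P_mem (H : TreeHyp T) (μ : E →L[ℝ] ℝ) (x : T) : μ ∘L (S.P x) ∈ VV S := by
  induction x using H.wf.induction with
  | _ x ih =>
    by_cases hmin : ∃ y, y < x
    · obtain ⟨y0, hy0⟩ := hmin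
      apply mem_VV_of_approx
      intro ε hε
      -- infimum of the norms
      set A : Set ℝ := (fun y => ‖mid S μ y x‖) '' (Set.Iio x) with hA
      have hAne : A.Nonempty := ⟨_, y0, hy0, rfl⟩
      have hAb : BddBelow A := ⟨0, by rintro _ ⟨y, _, rfl⟩; exact norm_nonneg _⟩
      obtain ⟨_, ⟨y, hy, rfl⟩, hlt⟩ := Real.lt_sInf_add_pos hAne (by positivity : 0 < ε / 3)
      have hlt : ‖mid S μ y x‖ < sInf A + ε / 3 := hlt
      have hy : y < x := hy
      have hsmall : ∀ y', y ≤ y' → y' < x → ‖mid S μ y y'‖ ≤ ε / 3 := by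
        intro y' h1 h2
        have h3 := mid_add (S := S) h1 h2.le μ
        have h4 : sInf A ≤ ‖mid S μ y' x‖ := csInf_le hAb ⟨y', h2, rfl⟩
        linarith
      refine ⟨μ ∘L (S.P y) + (μ (S.e x) - μ (S.e y)) • S.ev x,
        Submodule.add_mem _ (ih y hy) (Submodule.smul_mem _ _ (ev_mem x)), ?_⟩
      apply ContinuousLinearMap.opNorm_le_bound _ hε.le
      intro f
      rw [Real.norm_eq_abs]
      have hcore : ∀ δ > 0, |(μ ∘L (S.P x) - (μ ∘L (S.P y) + (μ (S.e x) - μ (S.e y)) • S.ev x)) f| ≤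
          2 * (ε / 3) * ‖f‖ + ‖μ‖ * δ := by
        intro δ hδ
        obtain ⟨y', h1, h2, h3⟩ := left_cont (S := S) H x f δ hδ y hy
        have h4 := h3 y' le_rfl h2
        have h5 : (μ ∘L (S.P x) - (μ ∘L (S.P y) + (μ (S.e x) - μ (S.e y)) • S.ev x)) f =
          mid S μ y y' f + μ (S.P x f - S.P y' f - S.ev x f • (S.e x - S.e y')) -
            S.ev x f * mid S μ y y' (S.e x) := by
          simp only [mid_apply, sub_apply, add_apply,
            ContinuousLinearMap.comp_apply, smul_apply, smul_eq_mul, map_sub, map_smul]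
          rw [S.P_e, S.P_e, inf_eq_left.2 h2.le, inf_eq_left.2 hy.le]
          ring
        rw [h5]
        have h6 : |mid S μ y y' f| ≤ ε / 3 * ‖f‖ := by
          rw [← Real.norm_eq_abs]
          refine ((mid S μ y y').le_opNorm f).trans ?_
          gcongr
          exact hsmall y' h1 h2
        have h7 : |mid S μ y y' (S.e x)| ≤ ε / 3 := by
          rw [← Real.norm_eq_abs]
          refine ((mid S μ y y').le_opNorm _).trans ?_
          have := hsmall y' h1 h2
          have h8 := S.norm_e_le x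
          calc ‖mid S μ y y'‖ * ‖S.e x‖ ≤ (ε / 3) * 1 := by gcongr
            _ = ε / 3 := mul_one _
        have h8 : |μ (S.P x f - S.P y' f - S.ev x f • (S.e x - S.e y'))| ≤ ‖μ‖ * δ := by
          rw [← Real.norm_eq_abs]
          refine (μ.le_opNorm _).trans ?_
          gcongr
        have h9 : |S.ev x f * mid S μ y y' (S.e x)| ≤ ‖f‖ * (ε / 3) := by
          rw [abs_mul]
          have := S.abs_ev_le x f
          gcongr
        have h10 := abs_sub (mid S μ y y' f + μ (S.P x f - S.P y' f - S.ev x f • (S.e x - S.e y')))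
            (S.ev x f * mid S μ y y' (S.e x))
        have h11 := abs_add_le (mid S μ y y' f) (μ (S.P x f - S.P y' f - S.ev x f • (S.e x - S.e y')))
        linarith
      have h12 : |(μ ∘L (S.P x) - (μ ∘L (S.P y) + (μ (S.e x) - μ (S.e y)) • S.ev x)) f| ≤
          2 * (ε / 3) * ‖f‖ := by
        apply le_of_forall_pos_le_add
        intro η hη
        have h13 := hcore (η / (‖μ‖ + 1)) (by positivity)
        have h14 : ‖μ‖ * (η / (‖μ‖ + 1)) ≤ η := by
          rw [mul_div_assoc', div_le_iff₀ (by positivity)]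
          nlinarith [norm_nonneg μ]
        linarith
      have := norm_nonneg f
      nlinarith
    · push Not at hmin
      have h1 : μ ∘L (S.P x) = μ (S.e x) • S.ev x := by
        ext f
        have h2 : S.P x f = S.ev x f • S.e x := by
          apply S.ext_ev
          intro z
          rw [S.ev_P, map_smul, S.ev_e]
          by_cases hz : z ≤ x
          · have : z = x := by
              rcases hz.eq_or_lt with h | h
              · exact h
              · exact absurd h (hmin z)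
            subst this
            simp
          · simp [hz]
        rw [ContinuousLinearMap.comp_apply, h2, map_smul, smul_apply, smul_eq_mul,
          smul_eq_mul, mul_comm]
      rw [h1]
      exact Submodule.smul_mem _ _ (ev_mem x)

/-- complement projections -/
noncomputable def QQ (S : TreeSys T E) : List T → E →L[ℝ] E
  | [] => ContinuousLinearMap.id ℝ E
  | t :: l => QQ S l - (QQ S l) ∘L (S.P t)

lemma ev_QQ (l : List T) (x : T) (f : E) : S.ev x (QQ S l f) = if ∃ t ∈ l, x ≤ t then 0 else S.ev x f := by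
  induction l generalizing f with
  | nil => simp [QQ]
  | cons t l ih =>
    change S.ev x (QQ S l f - QQ S l (S.P t f)) = _
    rw [map_sub, ih, ih, S.ev_P]
    by_cases h1 : ∃ t ∈ l, x ≤ t
    · have h2 : ∃ s ∈ t :: l, x ≤ s := by
        obtain ⟨s, hs, hxs⟩ := h1
        exact ⟨s, List.mem_cons_of_mem _ hs, hxs⟩
      rw [if_pos h1, if_pos h1, if_pos h2, sub_self]
    · by_cases h3 : x ≤ t
      · have h2 : ∃ s ∈ t :: l, x ≤ s := ⟨t, List.mem_cons_self, h3⟩
        rw [if_neg h1, if_neg h1, if_pos h2, if_pos h3, sub_self]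
      · have h2 : ¬ ∃ s ∈ t :: l, x ≤ s := by
          rintro ⟨s, hs, hxs⟩
          rcases List.mem_cons.1 hs with h | h
          · exact h3 (h ▸ hxs)
          · exact h1 ⟨s, h, hxs⟩
        rw [if_neg h1, if_neg h1, if_neg h2, if_neg h3, sub_zero]

lemma comp_QQ_mem (H : TreeHyp T) (l : List T) (μ : E →L[ℝ] ℝ) : μ - μ ∘L (QQ S l) ∈ VV S := by
  induction l with
  | nil =>
    have : μ - μ ∘L (QQ S []) = 0 := by ext f; simp [QQ]
    rw [this]; exact Submodule.zero_mem _
  | cons t l ih =>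
    have : μ - μ ∘L (QQ S (t :: l)) = (μ - μ ∘L (QQ S l)) + (μ ∘L (QQ S l)) ∘L (S.P t) := by
      ext f; simp [QQ]; ring
    rw [this]
    exact Submodule.add_mem _ ih (comp_P_mem H _ t)

lemma span_supp {f : E} (hf : f ∈ Submodule.span ℝ (Set.range S.e)) :
    ∃ l : List T, ∀ x, (¬ ∃ t ∈ l, x ≤ t) → S.ev x f = 0 := by
  refine Submodule.span_induction (p := fun f _ => ∃ l : List T, ∀ x, (¬ ∃ t ∈ l, x ≤ t) → S.ev x f = 0)
    ?_ ?_ ?_ ?_ hf
  · rintro _ ⟨t, rfl⟩
    refine ⟨[t], fun x hx => ?_⟩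
    rw [S.ev_e, if_neg]
    intro h; exact hx ⟨t, by simp, h⟩
  · exact ⟨[], fun x _ => map_zero _⟩
  · rintro f g _ _ ⟨l, hl⟩ ⟨l', hl'⟩
    refine ⟨l ++ l', fun x hx => ?_⟩
    rw [map_add, hl x, hl' x, add_zero]
    · rintro ⟨t, ht, hxt⟩; exact hx ⟨t, by simp [ht], hxt⟩
    · rintro ⟨t, ht, hxt⟩; exact hx ⟨t, by simp [ht], hxt⟩
  · rintro c f _ ⟨l, hl⟩
    refine ⟨l, fun x hx => ?_⟩
    rw [map_smul, hl x hx, smul_zero]

theorem all_mem (H : TreeHyp T) (μ : E →L[ℝ] ℝ) : μ ∈ VV S := by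
  apply mem_VV_of_approx
  intro ε hε
  rcases eq_or_ne μ 0 with rfl | hμ
  · exact ⟨0, Submodule.zero_mem _, by simpa using hε.le⟩
  have hμ0 : 0 < ‖μ‖ := norm_pos_iff.2 hμ
  -- almost norming vector
  obtain ⟨f0, hf0, hf0'⟩ : ∃ f0 : E, ‖f0‖ ≤ 1 ∧ ‖μ‖ - ε / 2 < μ f0 := by
    by_contra hcon
    push Not at hcon
    have h1 : ‖μ‖ ≤ max (‖μ‖ - ε / 2) 0 := by
      apply ContinuousLinearMap.opNorm_le_of_unit_norm (le_max_right _ _)
      intro f hf
      rw [Real.norm_eq_abs, abs_le]
      constructor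
      · have := hcon (-f) (by rw [norm_neg, hf])
        rw [map_neg] at this
        have := le_max_left (‖μ‖ - ε / 2) 0
        linarith
      · exact (hcon f hf.le).trans (le_max_left _ _)
    rcases le_max_iff.1 h1 with h | h
    · linarith
    · linarith
  set ε' := ε / (4 * ‖μ‖) with hε'
  have hε'0 : 0 < ε' := by positivity
  obtain ⟨f1, hf1, hf01⟩ := Metric.mem_closure_iff.1 (S.dense f0) ε' hε'0
  rw [dist_eq_norm] at hf01
  obtain ⟨l, hl⟩ := span_supp hf1
  refine ⟨μ - μ ∘L (QQ S l), comp_QQ_mem H l μ, ?_⟩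
  rw [sub_sub_cancel]
  have hf1n : ‖f1‖ ≤ 1 + ε' := by
    have : f1 = f0 - (f0 - f1) := by abel
    rw [this]
    refine (norm_sub_le _ _).trans ?_
    linarith
  have hμf1 : ‖μ‖ - ε / 2 - ‖μ‖ * ε' ≤ μ f1 := by
    have h1 : μ f1 = μ f0 - μ (f0 - f1) := by rw [map_sub]; ring
    have h2 : μ (f0 - f1) ≤ ‖μ‖ * ε' := by
      refine (le_abs_self _).trans ?_
      rw [← Real.norm_eq_abs]
      refine (μ.le_opNorm _).trans ?_
      gcongr
    linarith
  have key : ∀ g, ‖g‖ = 1 → μ (QQ S l g) ≤ ε := by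
    intro g hg
    have h1 : ‖f1 + QQ S l g‖ ≤ 1 + ε' := by
      apply S.norm_le _ _ (by positivity)
      intro x
      rw [map_add, ev_QQ]
      by_cases hx : ∃ t ∈ l, x ≤ t
      · rw [if_pos hx, add_zero]
        exact (S.abs_ev_le _ _).trans hf1n
      · rw [if_neg hx, hl x hx, zero_add]
        have := S.abs_ev_le x g
        linarith
    have h2 : μ (f1 + QQ S l g) ≤ ‖μ‖ * (1 + ε') := by
      refine (le_abs_self _).trans ?_
      rw [← Real.norm_eq_abs]
      refine (μ.le_opNorm _).trans ?_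
      gcongr
    rw [map_add] at h2
    have h3 : ‖μ‖ * ε' = ε / 4 := by rw [hε']; field_simp
    linarith
  apply ContinuousLinearMap.opNorm_le_of_unit_norm hε.le
  intro g hg
  rw [Real.norm_eq_abs, abs_le]
  constructor
  · have := key (-g) (by rw [norm_neg, hg])
    rw [map_neg, map_neg] at this
    rw [ContinuousLinearMap.comp_apply]
    linarith
  · exact key g hg

lemma countable_supp (H : TreeHyp T) (f : E) : {x | S.ev x f ≠ 0}.Countable := by
  refine S.induction (Q := fun f => {x | S.ev x f ≠ 0}.Countable) ?_ ?_ ?_ ?_ ?_ f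
  · apply isClosed_of_closure_subset
    intro f hf
    obtain ⟨g, hg, hgf⟩ := mem_closure_iff_seq_limit.1 hf
    have h1 : {x | S.ev x f ≠ 0} ⊆ ⋃ n, {x | S.ev x (g n) ≠ 0} := by
      intro x hx
      by_contra hcon
      rw [Set.mem_iUnion] at hcon
      push Not at hcon
      have h2 : ∀ n, S.ev x (g n) = 0 := fun n => by
        have := hcon n
        simpa using this
      have h3 : Tendsto (fun n => S.ev x (g n)) atTop (𝓝 (S.ev x f)) :=
        ((S.ev x).continuous.tendsto _).comp hgf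
      simp only [h2] at h3
      exact hx (tendsto_nhds_unique h3 tendsto_const_nhds)
    exact (Set.countable_iUnion hg).mono h1
  · intro t
    refine (H.cnt t).mono ?_
    intro x hx
    by_contra h
    apply hx
    have h' : ¬ x ≤ t := h
    rw [S.ev_e, if_neg h']
  · intro f g hf hg
    refine (hf.union hg).mono ?_
    intro x hx
    by_contra h
    rw [Set.mem_union] at h
    push Not at h
    apply hx
    have h1 : S.ev x f = 0 := by simpa using h.1
    have h2 : S.ev x g = 0 := by simpa using h.2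
    rw [map_add, h1, h2, add_zero]
  · intro c f hf
    refine hf.mono ?_
    intro x hx h
    apply hx
    rw [map_smul, h, smul_zero]
  · have : {x | S.ev x (0:E) ≠ 0} = ∅ := by ext x; simp
    rw [this]; exact Set.countable_empty

theorem separable_dual (H : TreeHyp T) (S : TreeSys T E) (Y : Submodule ℝ E) [hsep : TopologicalSpace.SeparableSpace Y] :
    TopologicalSpace.SeparableSpace (Y →L[ℝ] ℝ) := by
  obtain ⟨d, hd, hdd⟩ := TopologicalSpace.exists_countable_dense Y
  set D : Set T := ⋃ f ∈ d, {x | S.ev x (f : E) ≠ 0} with hD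
  have hDc : D.Countable := hd.biUnion (fun f _ => countable_supp H _)
  let R : (E →L[ℝ] ℝ) → (Y →L[ℝ] ℝ) := fun μ => μ ∘L Y.subtypeL
  have hR0 : ∀ x, x ∉ D → R (S.ev x) = 0 := by
    intro x hx
    ext f
    have h1 : ∀ g ∈ d, S.ev x (g : E) = 0 := by
      intro g hg
      by_contra h
      exact hx (Set.mem_biUnion hg h)
    have hcl : IsClosed {g : Y | S.ev x (g : E) = 0} :=
      isClosed_eq ((S.ev x).continuous.comp continuous_subtype_val) continuous_const
    have h2 := closure_minimal (s := d) (t := {g : Y | S.ev x (g : E) = 0}) h1 hcl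
    exact h2 (hdd f)
  set Z : Set (Y →L[ℝ] ℝ) := insert 0 ((fun x => R (S.ev x)) '' D) with hZ
  have hZc : Z.Countable := (hDc.image _).insert _
  have hZs : TopologicalSpace.IsSeparable (closure (Submodule.span ℝ Z : Set (Y →L[ℝ] ℝ))) :=
    (hZc.isSeparable.span (R := ℝ)).closure
  rw [← TopologicalSpace.isSeparable_univ_iff]
  refine hZs.mono ?_
  intro ν _
  obtain ⟨μ, hμ, _⟩ := exists_extension_norm_eq Y ν
  have hν : ν = R μ := by
    ext f
    exact (hμ f).symm
  rw [hν]
  have hRc : Continuous R := ((ContinuousLinearMap.compL ℝ Y E ℝ).flip Y.subtypeL).continuous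
  have hmem : μ ∈ VV S := all_mem H μ
  have h3 : (Submodule.span ℝ (Set.range S.ev) : Set (E →L[ℝ] ℝ)) ⊆
      R ⁻¹' (closure (Submodule.span ℝ Z : Set (Y →L[ℝ] ℝ))) := by
    intro κ hκ
    apply subset_closure
    refine Submodule.span_induction (p := fun κ _ => R κ ∈ Submodule.span ℝ Z) ?_ ?_ ?_ ?_ hκ
    · rintro _ ⟨x, rfl⟩
      by_cases hx : x ∈ D
      · exact Submodule.subset_span (Set.mem_insert_of_mem _ ⟨x, hx, rfl⟩)
      · rw [hR0 x hx]; exact Submodule.zero_mem _
    · exact Submodule.zero_mem _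
    · intro a b _ _ ha hb
      exact Submodule.add_mem _ ha hb
    · intro c a _ ha
      exact Submodule.smul_mem _ c ha
  exact closure_minimal h3 (isClosed_closure.preimage hRc) hmem

end asplund
end SSD
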