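import Pool.Agent.H9.SSDd

open Set Filter Topology BoundedContinuousFunction
open scoped Classical

namespace SSD

section concrete

variable (T : Type) [SemilatticeInf T] [TopologicalSpace T] [DiscreteTopology T]

variable {T} in
noncomputable def ind (t : T) : T →ᵇ ℝ :=
  BoundedContinuousFunction.ofNormedAddCommGroupDiscrete (fun x => if x ≤ t then (1:ℝ) else 0) 1 (by
    intro x; split_ifs <;> simp)

variable {T} in
lemma ind_apply (t x : T) : ind t x = if x ≤ t then 1 else 0 := rfl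

noncomputable def TS : Submodule ℝ (T →ᵇ ℝ) := (Submodule.span ℝ (Set.range (ind (T := T)))).topologicalClosure

instance : CompleteSpace (TS T) := (Submodule.isClosed_topologicalClosure _).completeSpace_coe

variable {T}

lemma ind_mem (t : T) : ind t ∈ TS T := Submodule.le_topologicalClosure _ (Submodule.subset_span ⟨t, rfl⟩)

lemma ind_mul_ind (s t : T) : ind s * ind t = ind (s ⊓ t) := by
  ext x
  rw [BoundedContinuousFunction.mul_apply, ind_apply, ind_apply, ind_apply]
  by_cases hs : x ≤ s <;> by_cases ht : x ≤ t <;> simp [hs, ht]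

lemma ind_mul_mem (s : T) {f : T →ᵇ ℝ} (hf : f ∈ TS T) : ind s * f ∈ TS T := by
  have h1 : (Submodule.span ℝ (Set.range (ind (T := T))) : Set (T →ᵇ ℝ)) ⊆ {f | ind s * f ∈ TS T} := by
    intro g hg
    refine Submodule.span_induction (p := fun g _ => ind s * g ∈ TS T) ?_ ?_ ?_ ?_ hg
    · rintro _ ⟨t, rfl⟩
      rw [ind_mul_ind]; exact ind_mem _
    · rw [mul_zero]; exact Submodule.zero_mem _
    · intro a b _ _ ha hb
      rw [mul_add]; exact Submodule.add_mem _ ha hb
    · intro c a _ ha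
      rw [mul_smul_comm]; exact Submodule.smul_mem _ _ ha
  have hcl : IsClosed {f : T →ᵇ ℝ | ind s * f ∈ TS T} :=
    (Submodule.isClosed_topologicalClosure _).preimage (continuous_const.mul continuous_id)
  exact closure_minimal h1 hcl hf

noncomputable def projP (s : T) : TS T →L[ℝ] TS T :=
  LinearMap.mkContinuous
    { toFun := fun (f : TS T) => (⟨ind s * (f : T →ᵇ ℝ), ind_mul_mem s f.2⟩ : TS T)
      map_add' := fun f g => Subtype.ext (mul_add _ _ _)
      map_smul' := fun c f => Subtype.ext (mul_smul_comm _ _ _) } 1 (by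
    intro f
    rw [one_mul]
    change ‖ind s * (f : T →ᵇ ℝ)‖ ≤ ‖(f : T →ᵇ ℝ)‖
    rw [BoundedContinuousFunction.norm_le (norm_nonneg _)]
    intro x
    rw [BoundedContinuousFunction.mul_apply, ind_apply]
    split_ifs
    · rw [one_mul]; exact BoundedContinuousFunction.norm_coe_le_norm _ x
    · rw [zero_mul, norm_zero]; exact norm_nonneg _)

noncomputable def evT (t : T) : TS T →L[ℝ] ℝ := (BoundedContinuousFunction.evalCLM ℝ t) ∘L (TS T).subtypeL

lemma evT_apply (t : T) (f : TS T) : evT t f = (f : T →ᵇ ℝ) t := rfl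

variable (T) in
noncomputable def sys : TreeSys T (TS T) where
  e t := ⟨ind t, ind_mem t⟩
  ev := evT
  P := projP
  ev_e t x := rfl
  abs_ev_le t f := by
    rw [← Real.norm_eq_abs]
    exact BoundedContinuousFunction.norm_coe_le_norm (f : T →ᵇ ℝ) t
  norm_le f C hC h := by
    change ‖(f : T →ᵇ ℝ)‖ ≤ C
    rw [BoundedContinuousFunction.norm_le hC]
    exact h
  ev_P s x f := by
    change (ind s * (f : T →ᵇ ℝ)) x = if x ≤ s then (f : T →ᵇ ℝ) x else 0
    rw [BoundedContinuousFunction.mul_apply, ind_apply]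
    split_ifs <;> simp
  dense f := by
    have hf : (f : T →ᵇ ℝ) ∈ closure (Submodule.span ℝ (Set.range (ind (T := T))) : Set (T →ᵇ ℝ)) := f.2
    rw [Metric.mem_closure_iff] at hf ⊢
    intro ε hε
    obtain ⟨g, hg, hfg⟩ := hf ε hε
    have hg' : g ∈ TS T := Submodule.le_topologicalClosure _ hg
    refine ⟨⟨g, hg'⟩, ?_, hfg⟩
    have h1 : Submodule.span ℝ (Set.range (ind (T := T))) ≤
        (Submodule.span ℝ (Set.range fun t => (⟨ind t, ind_mem t⟩ : TS T))).map (TS T).subtype := by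
      rw [Submodule.span_le]
      rintro _ ⟨t, rfl⟩
      exact ⟨⟨ind t, ind_mem t⟩, Submodule.subset_span ⟨t, rfl⟩, rfl⟩
    obtain ⟨k, hk, hkg⟩ := h1 hg
    have : (⟨g, hg'⟩ : TS T) = k := Subtype.ext hkg.symm
    rw [this]
    exact hk

end concrete

section node

variable (W : Type) [LinearOrder W] [WellFoundedLT W]

/-- countable subsets ordered by initial segment -/
def Node : Type := {A : Set W // A.Countable}

variable {W}

instance : LE (Node W) := ⟨fun A B => A.1 ⊆ B.1 ∧ ∀ b ∈ B.1, ∀ a ∈ A.1, b ≤ a → b ∈ A.1⟩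

lemma Node.le_def {A B : Node W} : A ≤ B ↔ A.1 ⊆ B.1 ∧ ∀ b ∈ B.1, ∀ a ∈ A.1, b ≤ a → b ∈ A.1 := Iff.rfl

instance : PartialOrder (Node W) where
  le_refl A := ⟨subset_rfl, fun b hb _ _ _ => hb⟩
  le_trans A B C h1 h2 := ⟨h1.1.trans h2.1, fun c hc a ha hca => h1.2 c (h2.2 c hc a (h1.1 ha) hca) a ha hca⟩
  le_antisymm A B h1 h2 := Subtype.ext (h1.1.antisymm h2.1)

instance : SemilatticeInf (Node W) where
  inf A B := ⟨{a | a ∈ A.1 ∧ ∀ x ≤ a, (x ∈ A.1 ↔ x ∈ B.1)}, A.2.mono (fun a ha => ha.1)⟩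
  inf_le_left A B := ⟨fun a ha => ha.1, fun b hb a ha hba => ⟨hb, fun x hx => ha.2 x (hx.trans hba)⟩⟩
  inf_le_right A B := ⟨fun a ha => (ha.2 a le_rfl).1 ha.1,
    fun b hb a ha hba => ⟨(ha.2 b hba).2 hb, fun x hx => ha.2 x (hx.trans hba)⟩⟩
  le_inf C A B h1 h2 := ⟨fun c hc => ⟨h1.1 hc, fun x hx =>
    ⟨fun hxA => h2.1 (h1.2 x hxA c hc hx), fun hxB => h1.1 (h2.2 x hxB c hc hx)⟩⟩,
    fun b hb c hc hbc => h1.2 b hb.1 c hc hbc⟩

lemma Node.lin (C A B : Node W) (hA : A ≤ C) (hB : B ≤ C) : A ≤ B ∨ B ≤ A := by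
  by_cases h : A.1 ⊆ B.1
  · exact Or.inl ⟨h, fun b hb a ha hba => hA.2 b (hB.1 hb) a ha hba⟩
  · obtain ⟨a, haA, haB⟩ := Set.not_subset.1 h
    refine Or.inr ⟨?_, fun b hb a ha hba => hB.2 b (hA.1 hb) a ha hba⟩
    intro b hb
    rcases le_total b a with h1 | h1
    · exact hA.2 b (hB.1 hb) a haA h1
    · exact absurd (hB.2 a (hA.1 haA) b hb h1) haB

lemma Node.wf : WellFounded ((· < ·) : Node W → Node W → Prop) := by
  rw [RelEmbedding.wellFounded_iff_isEmpty]
  refine ⟨fun g => ?_⟩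
  have hg : ∀ n, g (n+1) < g n := fun n => g.map_rel_iff.2 (Nat.lt_succ_self n)
  have h1 : ∀ n, ∃ a, a ∈ (g n).1 ∧ a ∉ (g (n+1)).1 := by
    intro n
    by_contra hcon
    push Not at hcon
    exact (not_le_of_gt (hg n)) ⟨hcon, fun b hb a _ _ => (hg n).le.1 hb⟩
  choose a ha1 ha2 using h1
  have h2 : ∀ n, a (n+1) < a n := by
    intro n
    by_contra hcon
    push Not at hcon
    exact ha2 n ((hg n).le.2 (a n) (ha1 n) (a (n+1)) (ha1 (n+1)) hcon)
  have hwf : WellFounded ((· < ·) : W → W → Prop) := wellFounded_lt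
  obtain ⟨m, ⟨n, rfl⟩, hm⟩ := hwf.has_min (Set.range a) ⟨a 0, 0, rfl⟩
  exact hm (a (n+1)) ⟨n+1, rfl⟩ (h2 n)

lemma Node.cnt (A : Node W) : (Set.Iic A).Countable := by
  have h1 : Set.Iic A ⊆ insert A ((fun w : W => (⟨A.1 ∩ Set.Iio w, A.2.mono Set.inter_subset_left⟩ : Node W)) '' A.1) := by
    intro B hB
    have hB : B ≤ A := hB
    by_cases h : A.1 ⊆ B.1
    · left
      exact Subtype.ext (hB.1.antisymm h)
    · right
      have hne : (A.1 \ B.1).Nonempty := by
        obtain ⟨a, h1, h2⟩ := Set.not_subset.1 h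
        exact ⟨a, h1, h2⟩
      obtain ⟨w, ⟨hwA, hwB⟩, hmin⟩ := (wellFounded_lt (α := W)).has_min _ hne
      refine ⟨w, hwA, Subtype.ext ?_⟩
      ext b
      constructor
      · rintro ⟨hbA, hbw⟩
        by_contra hbB
        exact hmin b ⟨hbA, hbB⟩ hbw
      · intro hb
        refine ⟨hB.1 hb, ?_⟩
        by_contra hbw
        exact hwB (hB.2 w hwA b hb (not_lt.1 hbw))
  exact ((A.2.image _).insert A).mono h1

lemma Node.lub (s : ℕ → Node W) (hs : Monotone s) : ∃ t, IsLUB (Set.range s) t := by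
  refine ⟨⟨⋃ n, (s n).1, Set.countable_iUnion (fun n => (s n).2)⟩, ?_, ?_⟩
  · rintro _ ⟨n, rfl⟩
    refine ⟨Set.subset_iUnion (fun n => (s n).1) n, ?_⟩
    intro b hb a ha hba
    obtain ⟨m, hm⟩ := Set.mem_iUnion.1 hb
    have h1 := hs (le_max_left m n)
    have h2 := hs (le_max_right m n)
    exact h2.2 b (h1.1 hm) a ha hba
  · intro C hC
    have hC : ∀ n, s n ≤ C := fun n => hC ⟨n, rfl⟩
    refine ⟨Set.iUnion_subset (fun n => (hC n).1), ?_⟩
    intro c hc a ha hca
    obtain ⟨n, hn⟩ := Set.mem_iUnion.1 ha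
    exact Set.mem_iUnion.2 ⟨n, (hC n).2 c hc a hn hca⟩

lemma Node.branch (hcI : ∀ w : W, (Set.Iic w).Countable) (hW : ¬ Countable W) (A : Node W) :
    ¬ {u | A ⋖ u}.Countable := by
  intro hcount
  apply hW
  set U : Set W := {w | ∀ a ∈ A.1, a < w} with hU
  -- the map w ↦ A ∪ {w}
  let F : W → Node W := fun w => ⟨insert w A.1, A.2.insert w⟩
  have hF : ∀ w ∈ U, A ⋖ F w := by
    intro w hw
    have hwA : w ∉ A.1 := fun h => lt_irrefl w (hw w h)
    have hle : A ≤ F w := by
      refine ⟨Set.subset_insert _ _, ?_⟩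
      intro b hb a ha hba
      rcases hb with rfl | hb
      · exact absurd (hw a ha) (not_lt_of_ge hba)
      · exact hb
    refine ⟨lt_of_le_of_ne hle ?_, ?_⟩
    · intro h
      apply hwA
      rw [h]
      exact Set.mem_insert _ _
    · intro C hAC hCF
      -- C is A or F w
      have hC1 := hCF.le
      by_cases hwC : w ∈ C.1
      · apply not_le_of_gt hCF
        have : F w = C := Subtype.ext ((Set.insert_subset hwC hAC.le.1).antisymm hC1.1)
        exact this.le
      · apply not_le_of_gt hAC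
        have h2 : C.1 ⊆ A.1 := by
          intro c hc
          rcases hC1.1 hc with h | h
          · exact absurd (h ▸ hc) hwC
          · exact h
        exact ⟨h2, fun b hb a _ _ => hAC.le.1 hb⟩
  have hinj : Set.InjOn F U := by
    intro w hw w' hw' h
    have h1 : w ∈ (F w').1 := by rw [← h]; exact Set.mem_insert _ _
    rcases h1 with h2 | h2
    · exact h2
    · exact absurd (hw w h2) (lt_irrefl w)
  have hUc : U.Countable := by
    refine Set.MapsTo.countable_of_injOn (t := {u | A ⋖ u}) ?_ hinj hcount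
    intro w hw
    exact hF w hw
  have hcover : (Set.univ : Set W) ⊆ U ∪ ⋃ a ∈ A.1, Set.Iic a := by
    intro w _
    by_cases hw : w ∈ U
    · exact Or.inl hw
    · right
      rw [hU, Set.mem_ofPred_eq] at hw
      push Not at hw
      obtain ⟨a, ha, hwa⟩ := hw
      exact Set.mem_biUnion ha hwa
  have := (hUc.union (A.2.biUnion (fun a _ => hcI a))).mono hcover
  exact Set.countable_univ_iff.1 this

lemma Node.treeHyp (hcI : ∀ w : W, (Set.Iic w).Countable) (hW : ¬ Countable W) : TreeHyp (Node W) where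
  lin := Node.lin
  wf := Node.wf
  cnt := Node.cnt
  lub := Node.lub
  branch := Node.branch hcI hW
  ne := ⟨⟨∅, Set.countable_empty⟩⟩

end node

lemma exists_W : ∃ (W : Type) (_ : LinearOrder W), WellFoundedLT W ∧ (∀ w : W, (Set.Iic w).Countable) ∧ ¬ Countable W := by
  refine ⟨(Cardinal.aleph 1).ord.ToType, inferInstance, inferInstance, ?_, ?_⟩
  · intro w
    have h1 : Cardinal.mk (Set.Iio w) < Cardinal.aleph 1 := by
      simpa using Cardinal.mk_Iio_lt w
    have h2 : (Set.Iio w).Countable := (Cardinal.countable_iff_lt_aleph_one _).2 h1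
    have : Set.Iic w = insert w (Set.Iio w) := by
      ext x; simp [le_iff_eq_or_lt]
    rw [this]
    exact h2.insert w
  · intro h
    have h1 := Cardinal.mk_le_aleph0_iff.2 h
    rw [Cardinal.mk_ord_toType] at h1
    exact absurd h1 (not_le_of_gt Cardinal.aleph0_lt_aleph_one)

end SSD
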